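import Pool.Agent.Helper11K9.OD.Rec
import Pool.Agent.Helper11K9.MT.Uni

/-!
Images of products of curves of large genus.
-/

set_option autoImplicit false
set_option linter.overlappingInstances false
set_option linter.unusedSectionVars false

open FF

namespace Pool.Agent.Helper11K9.OD

open Pool.Agent.W603.LV Pool.Agent.W602.RG
open Pool.Agent.W602.GT (Divisorial RegAt IsPluri KodGe DerReg)
open Pool.Agent.W619.PQ (extForm IsUniruled)
open Pool.Agent.R882.Over (GenusZero)
open Pool.Agent.Helper11K9.PC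

section

variable {F : Type} [Field F] [Algebra ℂ F]

/-- The regular differential forms of the curve with the function field `F`: the `F`-linear maps
from the derivations of `F` (the rational vector fields) to `F` whose values on the vector fields
which are regular at a place are regular at this place. -/
def regularForms (F : Type) [Field F] [Algebra ℂ F] :
    Submodule ℂ (Derivation ℂ F F →ₗ[F] F) where
  carrier := {ω | ∀ (P : Place ℂ F) (δ : Derivation ℂ F F), DerReg P δ → P.Reg (ω δ)}
  add_mem' := fun {a b} ha hb P δ hδ => by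
    have h1 : Ge P 0 (a δ) := ha P δ hδ
    have h2 : Ge P 0 (b δ) := hb P δ hδ
    exact h1.add h2
  zero_mem' := fun P δ _ => Or.inl rfl
  smul_mem' := fun c a ha P δ hδ => by
    have h1 : Ge P 0 (a δ) := ha P δ hδ
    have h2 : Ge P 0 (algebraMap ℂ F c * a δ) := by
      simpa using (Ge.const (P := P) c).mul h1
    have h3 : (c • a) δ = algebraMap ℂ F c * a δ := by
      rw [LinearMap.smul_apply, Algebra.smul_def]
    change Ge P 0 _
    rw [h3]
    exact h2

theorem derReg_of_vo [IsFF ℂ F] {P : Place ℂ F} {δ : Derivation ℂ F F} (hδ : δ ≠ 0)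
    (h : 0 ≤ vo P δ) : DerReg P δ := by
  intro f hf
  obtain ⟨g, hg, hfg⟩ := der_mul P (ord_unif P) hδ (f := f) hf
  rw [hfg]
  have h1 : Ge P 0 (δ (unif P)) := Or.inr h
  change Ge P 0 _
  simpa using h1.mul hg

/-- the dimension of the space of regular differential forms -/
theorem forms_le [IsFF ℂ F] {D : Derivation ℂ F F} (hD : D ≠ 0) :
    Module.finrank ℂ (regularForms F) ≤ Module.finrank ℂ (RR D hD) := by
  have hfin : FiniteDimensional ℂ (RR D hD) := finDim_LL _
  have hmem : ∀ ω ∈ regularForms F, ω D ∈ RR D hD := by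
    intro ω hω
    rw [mem_RR_ge]
    intro P
    obtain ⟨δ, hδ⟩ : ∃ δ : Derivation ℂ F F, δ = (unif P) ^ (-vo P D) • D := ⟨_, rfl⟩
    have hu : unif P ≠ 0 := by
      intro h
      have h1 := ord_unif P
      rw [h, P.ord_zero] at h1
      omega
    have hu2 : (unif P) ^ (-vo P D) ≠ 0 := zpow_ne_zero _ hu
    have hord : P.ord ((unif P) ^ (-vo P D)) = -vo P D := by
      rw [P.ord_zpow, ord_unif, mul_one]
    have h1 : vo P δ = 0 := by
      rw [hδ, vo_smul P hD hu2, hord]
      ring
    have hδ0 : δ ≠ 0 := by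
      rw [hδ]
      exact smul_ne_zero hu2 hD
    have h2 : Ge P 0 (ω δ) := hω P δ (derReg_of_vo hδ0 h1.ge)
    rw [hδ, map_smul, smul_eq_mul] at h2
    have h3 := h2.of_mul hu2
    rw [hord] at h3
    exact h3.mono (by omega)
  let Φ : regularForms F →ₗ[ℂ] RR D hD :=
    { toFun := fun ω => ⟨(ω : Derivation ℂ F F →ₗ[F] F) D, hmem _ ω.2⟩
      map_add' := fun a b => Subtype.ext rfl
      map_smul' := fun c a => Subtype.ext rfl }
  refine LinearMap.finrank_le_finrank_of_injective (f := Φ) ?_
  intro ω ω' hω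
  have h1 : (ω : Derivation ℂ F F →ₗ[F] F) D = (ω' : Derivation ℂ F F →ₗ[F] F) D :=
    congrArg Subtype.val hω
  refine Subtype.ext (LinearMap.ext fun δ => ?_)
  obtain ⟨h, hh⟩ := der_smul (D' := δ) hD
  rw [hh, map_smul, map_smul, h1]

end

/-- **Images of products of curves of large genus.** -/
theorem images {K : Type} [Field K] [Algebra ℂ K] {n : ℕ} (F : Fin n → IntermediateField ℂ K)
    [∀ i, IsFF ℂ (F i)] (hsup : ⨆ i, F i = ⊤) (hn : Algebra.trdeg ℂ K = n) {γ : Fin n → ℕ}
    (hγ : ∀ i (t : F i), Transcendental ℂ t →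
      γ i ≤ Module.finrank (IntermediateField.adjoin ℂ {t}) (F i))
    (hγ2 : ∀ i, 2 ≤ γ i)
    (L : IntermediateField ℂ K) [FiniteDimensional L K] {p : ℕ}
    (hp : ∀ q, q ∣ Module.finrank L K → q ≠ 1 → p ≤ q)
    (hpar : ∀ i j, i ≠ j → Odd (Module.finrank L K) ∨
      (3 ≤ γ i ∧ Module.finrank L K + 2 < 2 * Module.finrank ℂ (regularForms (F i))) ∨
      (3 ≤ γ j ∧ Module.finrank L K + 2 < 2 * Module.finrank ℂ (regularForms (F j))))
    (hg : ∀ i, Module.finrank L K < 2 * Module.finrank ℂ (regularForms (F i)))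
    (H : ∀ i j, i ≠ j → Module.finrank L K < p * γ j ∨
      Module.finrank L K < γ i + p * (γ j - 2))
    (h0 : GenusZero L n) :
    IsUniruled ℂ L n := by
  classical
  have hK0 : CharZero K := charZero_of_injective_algebraMap (algebraMap ℂ K).injective
  have hessK : Algebra.EssFiniteType ℂ K := ess_top F hsup
  have hessL : Algebra.EssFiniteType ℂ L := Pool.Agent.TH466.QG.ess_below (K := K)
  have hL : Algebra.trdeg ℂ L = n := Pool.Agent.Y184.NT.trdeg_below (K := K) hn
  obtain ⟨z, E, hz, hE⟩ := Pool.Agent.Y172.exists_crd (k := ℂ) (K := L) hL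
  choose E' hE' using fun i => Pool.Agent.Y172.exists_lift (k := ℂ) (K := L) (L := K) hL (E i)
  have hzK : IsTranscendenceBasis ℂ (fun j => algebraMap L K (z j)) := hz.algebraMap_comp
  have hE'd := Pool.Agent.Y172.lift_dual hE hE'
  choose x hx using fun i => IsFF.exists_transcendental (k := ℂ) (K := F i)
  obtain ⟨D, hDe⟩ : ∃ D : ∀ i, Derivation ℂ (F i) (F i), D = fun i => der ℂ (F i) := ⟨_, rfl⟩
  have hD : ∀ i, D i ≠ 0 := by
    intro i
    rw [hDe]
    exact der_ne
  obtain ⟨J, hJ⟩ : ∃ J : K, J = extForm 1 D x (fun _ => 1) E' := ⟨_, rfl⟩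
  have hJ0 : J ≠ 0 := by
    have hxb : IsTranscendenceBasis ℂ fun i => algebraMap (F i) K (x i) :=
      Pool.Agent.W619.PQ.basis_of_iSup F hsup hn x hx
    obtain ⟨G, hG⟩ := Pool.Agent.W619.PQ.extForm_ne (K := K) 1 D x (fun _ => 1)
      (fun i => one_ne_zero) (fun i => der_ne_zero (hD i) (hx i)) hxb
    have h1 := Pool.Agent.Y172.pluri_coord hzK hE'd (m := 1)
      (ω := extForm 1 D x (fun _ => 1)) (Pool.Agent.W619.PQ.extForm_pluri 1 D x _) G
    rw [h1] at hG
    rw [hJ]
    exact right_ne_zero_of_mul hG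
  have hT : TrZ F D J Finset.univ L := by
    intro f hf
    have h1 := Pool.Agent.Y692.NT.t_Tr L K n hL h0 (extForm 1 D x f)
      (Pool.Agent.W619.PQ.extForm_pluri 1 D x f)
      (fun P hP => ext_reg hD hx (fun i => hf i (Finset.mem_univ i)) P hP) E E' hE'
    rw [ext_val, ← hJ] at h1
    exact h1
  have hfl : ∀ i, Module.finrank ℂ (regularForms (F i)) ≤ Module.finrank ℂ (RR (D i) (hD i)) :=
    fun i => forms_le (hD i)
  have hpos : 0 < Module.finrank L K := Module.finrank_pos
  obtain ⟨i, E2, hLE, hfinE, hFE, hT2⟩ := rec_gen hD hsup hγ hγ2 hJ0 hpos hp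
    (fun i j hij => by
      have h1 := hfl i
      have h2 := hfl j
      rcases hpar i j hij with h | ⟨h, h'⟩ | ⟨h, h'⟩
      · exact Or.inl h
      · exact Or.inr (Or.inl ⟨h, by omega⟩)
      · exact Or.inr (Or.inr ⟨h, by omega⟩))
    (fun i => by
      have h1 := hfl i
      have h2 := hg i
      omega) H n Finset.univ L
    (by simp) inferInstance dvd_rfl (fun j hj => absurd (Finset.mem_univ j) hj) hT
  have hc : ∀ j, ∃ c : F j, RegD (D j) c := by
    intro j
    have h1 : RR (D j) (hD j) ≠ ⊥ := by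
      intro h
      have h1 := hfl j
      have h2 := hg j
      rw [h, finrank_bot] at h1
      omega
    obtain ⟨c, hc, hc0⟩ := (Submodule.ne_bot_iff _).1 h1
    exact ⟨c, hc0, (mem_RR.1 hc).resolve_left hc0⟩
  choose c hc using hc
  exact Pool.Agent.Helper11K9.MT.uni_of_line F hsup hn L hD hx hz hE hE' hJ i E2 hLE hfinE hFE
    (fun j _ => hc j) hT2

/-- a curve with a regular differential form has gonality at least two -/
theorem two_le {F : Type} [Field F] [Algebra ℂ F] [IsFF ℂ F]
    (hg : 0 < Module.finrank ℂ (regularForms F)) {t : F} (ht : Transcendental ℂ t) :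
    2 ≤ Module.finrank (IntermediateField.adjoin ℂ {t}) F := by
  have hD : der ℂ F ≠ 0 := der_ne
  have h0 := forms_le (F := F) hD
  have h1 : RR (der ℂ F) hD ≠ ⊥ := by
    intro h
    rw [h, finrank_bot] at h0
    omega
  obtain ⟨c, hc, hc0⟩ := (Submodule.ne_bot_iff _).1 h1
  exact two_le_gon hD (f := c) ⟨hc0, (mem_RR.1 hc).resolve_left hc0⟩ ht

end Pool.Agent.Helper11K9.OD
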