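import Pool.Agent.Helper11K9.OD.Res
import Pool.Agent.Helper11K9.PC.BCb

/-!
Clifford's inequality: the rank of a set of points on the canonical curve.
-/

set_option autoImplicit false
set_option linter.overlappingInstances false
set_option linter.unusedSectionVars false

open Polynomial FF IntermediateField

namespace Pool.Agent.Helper11K9.OD

open Pool.Agent.W603.LV Pool.Agent.W619.PQ Pool.Agent.Helper11K9.PC

section

variable {k F : Type} [Field k] [Field F] [Algebra k F] [CharZero k] [IsFF k F] [IsAlgClosed k]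

/-- the residue functional -/
noncomputable def ell {x : F} (hx : Transcendental k x) : F →ₗ[k] k where
  toFun y := (iota hx (Algebra.trace k⟮x⟯ F y)).coeff 1
  map_add' y z := by
    rw [map_add, map_add, HahnSeries.coeff_add]
  map_smul' c y := by
    have h1 : Algebra.trace k⟮x⟯ F (c • y) =
        px x (C c) * Algebra.trace k⟮x⟯ F y := by
      have h2 : c • y = ((px x (C c) : k⟮x⟯) : F) * y := by
        rw [coe_px, aeval_C, Algebra.smul_def]
      rw [h2]
      exact trace_mul_left _ y
    have h3 : eU (C c) = HahnSeries.C c := by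
      ext j
      rw [coeff_eU]
      by_cases hj : j = 0
      · subst hj
        simp
      · rw [HahnSeries.C_apply, HahnSeries.coeff_single_of_ne hj]
        by_cases hj2 : j ≤ 0
        · rw [if_pos hj2, coeff_C, if_neg (by omega)]
        · rw [if_neg hj2]
    rw [h1, map_mul, iota_px, h3, HahnSeries.C_mul_eq_smul, HahnSeries.coeff_smul,
      RingHom.id_apply]

theorem ell_apply {x : F} (hx : Transcendental k x) (y : F) :
    ell hx y = (iota hx (Algebra.trace k⟮x⟯ F y)).coeff 1 := rfl

variable (D : Derivation k F F) (hD : D ≠ 0)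

/-- the regular differentials which vanish at the points of `S` -/
noncomputable def RRS (S : Finset (Place k F)) : Submodule k F :=
  RR D hD ⊓
    { carrier := {f | ∀ P ∈ S, Ge P (vo P D + 1) f}
      add_mem' := fun ha hb P hP => (ha P hP).add (hb P hP)
      zero_mem' := fun _ _ => Ge.zero
      smul_mem' := by
        intro c y hy P hP
        rw [Algebra.smul_def]
        simpa using (Ge.const (P := P) c).mul (hy P hP) }

variable {D hD}

theorem mem_RR_ge {f : F} : f ∈ RR D hD ↔ ∀ P : Place k F, Ge P (vo P D) f := by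
  rw [mem_RR]
  constructor
  · rintro (rfl | h) P
    · exact Ge.zero
    · exact Or.inr (h P)
  · intro h
    by_cases h0 : f = 0
    · exact Or.inl h0
    · exact Or.inr fun P => (h P).resolve_left h0

theorem mem_RRS {S : Finset (Place k F)} {f : F} :
    f ∈ RRS D hD S ↔ (∀ P : Place k F, Ge P (vo P D) f) ∧ ∀ P ∈ S, Ge P (vo P D + 1) f := by
  unfold RRS
  rw [Submodule.mem_inf, mem_RR_ge]
  rfl

instance RR_fin : FiniteDimensional k (RR D hD) := finDim_LL _

theorem RRS_le (S : Finset (Place k F)) : RRS D hD S ≤ RR D hD := inf_le_left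

instance RRS_fin (S : Finset (Place k F)) : FiniteDimensional k (RRS D hD S) :=
  Submodule.finiteDimensional_of_le (RRS_le S)

open Classical in
/-- the divisor of a finite set of points -/
noncomputable def ES (S : Finset (Place k F)) : Place k F →₀ ℤ :=
  ∑ P ∈ S, Finsupp.single P (1 : ℤ)

open Classical in
theorem ES_apply (S : Finset (Place k F)) (P : Place k F) :
    ES S P = if P ∈ S then 1 else 0 := by
  rw [ES, Finsupp.finsetSum_apply]
  simp only [Finsupp.single_apply]
  rw [Finset.sum_ite_eq']

theorem ES_nonneg (S : Finset (Place k F)) (P : Place k F) : 0 ≤ ES S P := by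
  classical
  rw [ES_apply]
  split_ifs <;> omega

theorem ES_mem {S : Finset (Place k F)} {P : Place k F} (hP : P ∈ S) : ES S P = 1 := by
  classical
  rw [ES_apply, if_pos hP]

theorem ES_not_mem {S : Finset (Place k F)} {P : Place k F} (hP : P ∉ S) : ES S P = 0 := by
  classical
  rw [ES_apply, if_neg hP]

/-- the functions with at most simple poles, all of them in `S` -/
noncomputable def LLS (S : Finset (Place k F)) : Submodule k F := LL (ES S)

theorem mem_LLS {S : Finset (Place k F)} {f : F} :
    f ∈ LLS S ↔ ∀ P : Place k F, Ge P (-ES S P) f := by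
  rw [LLS, mem_LL]
  constructor
  · rintro (rfl | h) P
    · exact Ge.zero
    · exact Or.inr (h P)
  · intro h
    by_cases h0 : f = 0
    · exact Or.inl h0
    · exact Or.inr fun P => (h P).resolve_left h0

instance LLS_fin (S : Finset (Place k F)) : FiniteDimensional k (LLS (k := k) S) := finDim_LL _

/-- **Riemann's inequality**, with the index of speciality. -/
theorem rr_ineq (S : Finset (Place k F)) (hS0 : S.Nonempty) :
    S.card + Module.finrank k (RRS D hD S) + 1 ≤
      Module.finrank k (LLS (k := k) S) + Module.finrank k (RR D hD) := by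
  classical
  obtain ⟨x, hx, hxT⟩ := exists_poles S hS0
  have hfin := IsFF.finite hx
  obtain ⟨Z, hZ, -⟩ := poles (k := k) (K := F) hx
  have hDx := der_ne_zero hD hx
  obtain ⟨D1, hD1⟩ : ∃ D1 : Derivation k F F, D1 = (D x)⁻¹ • D := ⟨_, rfl⟩
  have hD1x : D1 x = 1 := by rw [hD1]; simp [hDx]
  have hvo : ∀ P : Place k F, vo P D1 = vo P D + P.ord (D x)⁻¹ := by
    intro P
    rw [hD1, vo_smul P hD (inv_ne_zero hDx)]
    ring
  have hδ : ∀ P : Place k F, Ge P (P.ord (D x)⁻¹) (D x)⁻¹ := fun P => Or.inr le_rfl
  -- functions with one simple pole among the poles of `x`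
  have h1 : ∀ P : Place k F, ∃ y : F, P.ord y = -1 ∧ y ≠ 0 ∧ ∀ Q ∈ Z.erase P, Ge Q 0 y := by
    intro P
    obtain ⟨π, hπ0, hπ⟩ := P.surj
    obtain ⟨y, hy1, hy2⟩ := approx_one (Z.erase P) P (by simp) π⁻¹ 0
    have hπi : P.ord π⁻¹ = -1 := by rw [P.ord_inv, hπ]
    have h2 : y ≠ 0 ∧ P.ord y = -1 := by
      by_cases h3 : y - π⁻¹ = 0
      · rw [sub_eq_zero.1 h3]
        exact ⟨inv_ne_zero hπ0, hπi⟩
      · have h4 := hy1.resolve_left h3
        have h5 := P.ord_add_eq (f := π⁻¹) (g := y - π⁻¹) (inv_ne_zero hπ0) h3 (by omega)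
        rwa [add_sub_cancel, hπi] at h5
    exact ⟨y, h2.2, h2.1, hy2⟩
  choose u hu1 hu0 hu2 using h1
  have huZ : ∀ P Q : Place k F, Q ≠ P → Q.ord x < 0 → Ge Q 0 (u P) := fun P Q h1 h2 =>
    hu2 P Q (Finset.mem_erase.2 ⟨h1, (hZ Q).2 h2⟩)
  -- the duality
  have hd1 : ∀ f ∈ RR D hD, ∀ y ∈ BB (k := k) x, ell hx (f * (D x)⁻¹ * y) = 0 := by
    intro f hf y hy
    rw [mem_RR_ge] at hf
    refine res_fin hx hD1x fun w hw => ?_
    rw [hvo]
    simpa using ((hf w).mul (hδ w)).mul (hy w hw)
  have hd2 : ∀ f ∈ RR D hD, ∀ y ∈ BI (k := k) x, ell hx (f * (D x)⁻¹ * y) = 0 := by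
    intro f hf y hy
    rw [mem_RR_ge] at hf
    refine res_inf hx hD1x fun w hw => ?_
    rw [hvo]
    simpa using ((hf w).mul (hδ w)).mul (hy w hw)
  have hd3 : ∀ f ∈ RRS D hD S, ∀ P ∈ S, ell hx (f * (D x)⁻¹ * u P) = 0 := by
    intro f hf P hP
    rw [mem_RRS] at hf
    refine res_inf hx hD1x fun w hw => ?_
    rw [hvo]
    by_cases hwP : w = P
    · subst hwP
      have h2 : Ge w (-1) (u w) := Or.inr (hu1 w).ge
      exact (((hf.2 w hP).mul (hδ w)).mul h2).mono (by omega)
    · exact (((hf.1 w).mul (hδ w)).mul (huZ P w hwP hw)).mono (by omega)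
  have hd4 : ∀ t : F, t ∉ BB (k := k) x ⊔ BI (k := k) x →
      ∃ f ∈ RR D hD, ell hx (f * (D x)⁻¹ * t) ≠ 0 := by
    intro t ht
    obtain ⟨lam, hlam, hle⟩ := Submodule.exists_le_ker_of_notMem ht
    have hB : ∀ y ∈ BB (k := k) x, lam y = 0 := fun y hy => hle (Submodule.mem_sup_left hy)
    have hI : ∀ y ∈ BI (k := k) x, lam y = 0 := fun y hy => hle (Submodule.mem_sup_right hy)
    obtain ⟨f, hf0, hf⟩ := exists_mult lam hI hx hB (by
      rintro rfl
      exact hlam rfl)
    refine ⟨f * D x, ?_, ?_⟩
    · rw [mem_RR]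
      right
      intro P
      have h2 := mult_regular hx D1 hD1x lam hI hB hf0 hf P
      rw [hvo, P.ord_inv] at h2
      rw [P.ord_mul hf0 hDx]
      omega
    · have h2 : f * D x * (D x)⁻¹ * t = f * t := by
        field_simp
      rw [h2, ell_apply, hf, SS_coeff, sub_self, zpow_zero, one_mul]
      exact hlam
  -- the linear algebra
  let φ : (S → k) →ₗ[k] F := Fintype.linearCombination k fun P : S => u P
  have hφ : ∀ a : S → k, φ a = ∑ P, a P • u P := fun a => Fintype.linearCombination_apply _ _ _
  let G : (S → k) →ₗ[k] Module.Dual k (RR D hD) :=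
    { toFun := fun a =>
        { toFun := fun f => ell hx ((f : F) * (D x)⁻¹ * φ a)
          map_add' := fun f g => by
            rw [← map_add]
            congr 1
            push_cast
            ring
          map_smul' := fun c f => by
            rw [RingHom.id_apply, ← map_smul]
            congr 1
            push_cast
            rw [Algebra.smul_def, Algebra.smul_def]
            ring }
      map_add' := fun a b => by
        ext f
        change ell hx ((f : F) * (D x)⁻¹ * φ (a + b)) = ell hx ((f : F) * (D x)⁻¹ * φ a) +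
          ell hx ((f : F) * (D x)⁻¹ * φ b)
        rw [← map_add, map_add φ]
        congr 1
        ring
      map_smul' := fun c a => by
        ext f
        change ell hx ((f : F) * (D x)⁻¹ * φ (c • a)) = c • ell hx ((f : F) * (D x)⁻¹ * φ a)
        rw [← map_smul, map_smul φ]
        congr 1
        rw [Algebra.smul_def, Algebra.smul_def]
        ring }
  have hGa : ∀ a f, G a f = ell hx ((f : F) * (D x)⁻¹ * φ a) := fun _ _ => rfl
  let R' : Submodule k (RR D hD) := (RRS D hD S).comap (RR D hD).subtype
  have hR' : Module.finrank k R' = Module.finrank k (RRS D hD S) :=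
    (Submodule.comapSubtypeEquivOfLe (inf_le_left : RRS D hD S ≤ RR D hD)).finrank_eq
  have hrange : LinearMap.range G ≤ R'.dualAnnihilator := by
    rintro _ ⟨a, rfl⟩
    rw [Submodule.mem_dualAnnihilator]
    intro f hf
    rw [hGa, hφ, Finset.mul_sum, map_sum]
    refine Finset.sum_eq_zero fun P _ => ?_
    have h2 : (f : F) * (D x)⁻¹ * (a P • u P) = a P • ((f : F) * (D x)⁻¹ * u P) := by
      rw [Algebra.smul_def, Algebra.smul_def]
      ring
    rw [h2, map_smul, hd3 f hf P P.2, smul_zero]
  have h2 := Submodule.finrank_mono hrange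
  have h3 := Subspace.finrank_add_finrank_dualAnnihilator_eq R'
  have h4 := LinearMap.finrank_range_add_finrank_ker G
  rw [Module.finrank_fintype_fun_eq_card, Fintype.card_coe] at h4
  -- functions with poles
  obtain ⟨E, hE⟩ : ∃ E : Place k F →₀ ℤ, E = ES S := ⟨_, rfl⟩
  have hEv : ∀ P, E P = if P ∈ S then 1 else 0 := by
    intro P
    rw [hE, ES_apply]
  let Ψ : LL E →ₗ[k] F ⧸ BI (k := k) x := (BI (k := k) x).mkQ.comp (LL E).subtype
  have hinj : Function.Injective ((BI (k := k) x).mkQ.comp φ) := by
    rw [← LinearMap.ker_eq_bot, LinearMap.ker_eq_bot']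
    intro a ha
    have h5 : φ a ∈ BI (k := k) x := by
      rw [LinearMap.comp_apply] at ha
      exact (Submodule.Quotient.mk_eq_zero _).1 ha
    funext P
    by_contra hne
    rw [Pi.zero_apply] at hne
    have h6 := h5 P (hxT P P.2)
    rw [hφ, ← Finset.add_sum_erase _ _ (Finset.mem_univ P)] at h6
    have h7 : Ge (P : Place k F) 0 (∑ Q ∈ Finset.univ.erase P, a Q • u Q) := by
      refine Ge.sum _ _ fun Q hQ => ?_
      rw [Algebra.smul_def]
      have h8 := huZ Q P (fun h => (Finset.ne_of_mem_erase hQ) (Subtype.ext h.symm)) (hxT P P.2)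
      simpa using (Ge.const (P := (P : Place k F)) (a Q)).mul h8
    have h8 := h6.sub h7
    rw [add_sub_cancel_right] at h8
    have h9 : a P • u P ≠ 0 := smul_ne_zero hne (hu0 P)
    have h10 := h8.resolve_left h9
    rw [Algebra.smul_def, Place.ord_mul _ (by simpa using hne) (hu0 P), Place.ord_const _ hne, hu1]
      at h10
    omega
  have hrange2 : (LinearMap.ker G).map ((BI (k := k) x).mkQ.comp φ) ≤ LinearMap.range Ψ := by
    rintro _ ⟨a, ha, rfl⟩
    have h5 : φ a ∈ BB (k := k) x ⊔ BI (k := k) x := by
      by_contra hcon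
      obtain ⟨f, hf, hf2⟩ := hd4 _ hcon
      apply hf2
      have h6 := congrArg (fun μ : Module.Dual k (RR D hD) => μ ⟨f, hf⟩) (LinearMap.mem_ker.1 ha)
      exact h6
    obtain ⟨b, hb, c, hc, hbc⟩ := Submodule.mem_sup.1 h5
    have h6 : b ∈ LL E := by
      rw [mem_LL]
      by_cases hb0 : b = 0
      · exact Or.inl hb0
      right
      intro P
      rw [hEv]
      rcases lt_or_ge (P.ord x) 0 with hPx | hPx
      · have h7 : b = φ a - c := by rw [← hbc]; ring
        have h8 : Ge P (-if P ∈ S then 1 else 0) (φ a) := by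
          rw [hφ]
          refine Ge.sum _ _ fun Q _ => ?_
          rw [Algebra.smul_def]
          have h9 : Ge P (-if P ∈ S then 1 else 0) (u Q) := by
            by_cases hPQ : P = Q
            · rw [if_pos (hPQ ▸ Q.2), hPQ]
              exact Or.inr (hu1 _).ge
            · refine (huZ Q P hPQ hPx).mono ?_
              split_ifs <;> omega
          simpa using (Ge.const (P := P) (a Q)).mul h9
        have h9 : Ge P (-if P ∈ S then 1 else 0) b := by
          rw [h7]
          refine h8.sub ((hc P hPx).mono ?_)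
          split_ifs <;> omega
        exact h9.resolve_left hb0
      · have h7 := (hb P hPx).resolve_left hb0
        split_ifs <;> omega
    refine ⟨⟨b, h6⟩, ?_⟩
    change (BI (k := k) x).mkQ b = (BI (k := k) x).mkQ (φ a)
    rw [← sub_eq_zero, ← map_sub]
    refine (Submodule.Quotient.mk_eq_zero _).2 ?_
    have h7 : b - φ a = -c := by rw [← hbc]; ring
    rw [h7]
    exact (BI (k := k) x).neg_mem hc
  have h5 : Module.finrank k (LinearMap.ker G) ≤ Module.finrank k (LinearMap.range Ψ) := by
    rw [(Submodule.equivMapOfInjective _ hinj (LinearMap.ker G)).finrank_eq]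
    exact Submodule.finrank_mono hrange2
  have h6 := LinearMap.finrank_range_add_finrank_ker Ψ
  have h7 : 0 < Module.finrank k (LinearMap.ker Ψ) := by
    have h8 : (1 : F) ∈ LL E := by
      rw [mem_LL]
      right
      intro P
      rw [P.ord_one, hEv]
      split_ifs <;> omega
    rw [Nat.pos_iff_ne_zero, Ne, Submodule.finrank_eq_zero]
    intro h9
    have h10 : (⟨1, h8⟩ : LL E) ∈ LinearMap.ker Ψ := by
      rw [LinearMap.mem_ker]
      refine (Submodule.Quotient.mk_eq_zero _).2 fun P _ => ?_
      exact Ge.one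
    rw [h9, Submodule.mem_bot] at h10
    exact one_ne_zero (congrArg Subtype.val h10)
  have h8 : Module.finrank k (LLS (k := k) S) = Module.finrank k (LL E) := by
    rw [hE]
    rfl
  omega

theorem one_mem_LLS (S : Finset (Place k F)) : (1 : F) ∈ LLS (k := k) S := by
  rw [mem_LLS]
  intro P
  exact Ge.one.mono (by have := ES_nonneg S P; omega)

theorem LLS_ne_bot (S : Finset (Place k F)) : LLS (k := k) S ≠ ⊥ := by
  intro h
  have h1 := one_mem_LLS (k := k) S
  rw [h, Submodule.mem_bot] at h1
  exact one_ne_zero h1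

/-- the dimensions of the functions and of the differentials -/
theorem hopf_S (S : Finset (Place k F)) (hne : RRS D hD S ≠ ⊥) :
    Module.finrank k (LLS (k := k) S) + Module.finrank k (RRS D hD S) ≤
      Module.finrank k (RR D hD) + 1 := by
  classical
  refine hopf (LLS S) (RRS D hD S) (RR D hD) (LLS_ne_bot S) hne fun a ha f hf => ?_
  rw [mem_RRS] at hf
  rw [mem_LLS] at ha
  rw [mem_RR_ge]
  intro P
  have h9 := ha P
  by_cases hP : P ∈ S
  · rw [ES_mem hP] at h9
    exact (h9.mul (hf.2 P hP)).mono (by omega)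
  · rw [ES_not_mem hP] at h9
    exact (h9.mul (hf.1 P)).mono (by omega)

/-- **Clifford's inequality.** -/
theorem clifford (S : Finset (Place k F)) (hne : RRS D hD S ≠ ⊥) :
    S.card + 2 * Module.finrank k (RRS D hD S) ≤ 2 * Module.finrank k (RR D hD) := by
  by_cases hS0 : S.Nonempty
  swap
  · rw [Finset.not_nonempty_iff_eq_empty] at hS0
    rw [hS0, Finset.card_empty]
    have := Submodule.finrank_mono (RRS_le (D := D) (hD := hD) ∅)
    omega
  have h1 := rr_ineq (D := D) (hD := hD) S hS0
  have h2 := hopf_S (D := D) (hD := hD) S hne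
  omega

end

end Pool.Agent.Helper11K9.OD
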