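import Pool.Agent.Helper11K9.PC.Rec

/-!
Dimensions of products of spaces of functions.
-/

set_option autoImplicit false
set_option linter.overlappingInstances false
set_option linter.unusedSectionVars false

open Polynomial FF IntermediateField

namespace Pool.Agent.Helper11K9.OD

open Pool.Agent.W603.LV Pool.Agent.W619.PQ Pool.Agent.Helper11K9.PC

section

variable {k F : Type} [Field k] [Field F] [Algebra k F] [CharZero k] [IsFF k F] [IsAlgClosed k]

/-- a finite dimensional space has at least as many orders as its dimension -/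
theorem exists_orders (P : Place k F) : ∀ (a : ℕ) (A : Submodule k F), FiniteDimensional k A →
    Module.finrank k A = a → ∃ X : Finset ℤ, a ≤ X.card ∧ ∀ n ∈ X, ∃ f ∈ A, f ≠ 0 ∧ P.ord f = n := by
  classical
  intro a
  induction a using Nat.strong_induction_on with
  | _ a ih =>
  intro A hfin hA
  rcases Nat.eq_zero_or_pos a with h0 | h0
  · subst h0
    exact ⟨∅, by simp, by simp⟩
  -- the orders are bounded below
  have hne : ∃ f ∈ A, f ≠ 0 := by
    by_contra hcon
    push Not at hcon
    have h1 : A = ⊥ := (Submodule.eq_bot_iff A).2 hcon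
    rw [h1, finrank_bot] at hA
    omega
  obtain ⟨M, hM⟩ : ∃ M : ℤ, ∀ f ∈ A, Ge P M f := by
    let b := Module.finBasis k A
    obtain ⟨M, hM⟩ : ∃ M : ℤ, ∀ i, M ≤ P.ord (b i : F) := by
      by_cases h : Nonempty (Fin (Module.finrank k A))
      · refine ⟨Finset.univ.inf' ⟨h.some, Finset.mem_univ _⟩ fun i => P.ord (b i : F), fun i =>
          Finset.inf'_le _ (Finset.mem_univ i)⟩
      · exact ⟨0, fun i => absurd ⟨i⟩ h⟩
    refine ⟨M, fun f hf => ?_⟩
    have h1 := congrArg (A.subtype) (b.sum_repr ⟨f, hf⟩)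
    rw [map_sum] at h1
    simp only [map_smul, Submodule.subtype_apply] at h1
    rw [← h1]
    refine Ge.sum _ _ fun i _ => ?_
    rw [Algebra.smul_def]
    have h2 : Ge P M (b i : F) := Or.inr (hM i)
    simpa using (Ge.const (P := P) (b.repr ⟨f, hf⟩ i)).mul h2
  obtain ⟨n0, ⟨f0, hf0, hf00, hn0⟩, hmin⟩ := Int.exists_least_of_bdd
    (P := fun n => ∃ f ∈ A, f ≠ 0 ∧ P.ord f = n) ⟨M, by
      rintro z ⟨f, hf, hf0, rfl⟩
      exact (hM f hf).resolve_left hf0⟩ (by
      obtain ⟨f, hf, hf0⟩ := hne
      exact ⟨_, f, hf, hf0, rfl⟩)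
  let A' : Submodule k F := A ⊓
    { carrier := {f | Ge P (n0 + 1) f}
      add_mem' := fun ha hb => ha.add hb
      zero_mem' := Ge.zero
      smul_mem' := by
        intro c y hy
        rw [Algebra.smul_def]
        simpa using (Ge.const (P := P) c).mul hy }
  have hA'fin : FiniteDimensional k A' := Submodule.finiteDimensional_of_le inf_le_left
  have hle : A ≤ A' ⊔ Submodule.span k {f0} := by
    intro f hf
    have h1 : Ge P n0 f := by
      by_cases h : f = 0
      · exact Or.inl h
      · exact Or.inr (hmin _ ⟨f, hf, h, rfl⟩)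
    have h2 : Ge P 0 (f * f0⁻¹) := by
      have h3 : Ge P (-n0) f0⁻¹ := Or.inr (by rw [P.ord_inv, hn0])
      have h4 := h1.mul h3
      rwa [add_neg_cancel] at h4
    obtain ⟨c, hc⟩ := exists_const P h2
    have h3 : f = (f - c • f0) + c • f0 := by ring
    rw [h3]
    refine Submodule.add_mem_sup ⟨A.sub_mem hf (A.smul_mem c hf0), ?_⟩
      (Submodule.smul_mem _ _ (Submodule.mem_span_singleton_self _))
    change Ge P (n0 + 1) (f - c • f0)
    have h4 : f - c • f0 = (f * f0⁻¹ - algebraMap k F c) * f0 := by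
      rw [Algebra.smul_def]
      field_simp
    rw [h4, add_comm]
    have h5 : Ge P n0 f0 := Or.inr hn0.ge
    exact hc.mul h5
  have h1 : Module.finrank k A ≤ Module.finrank k A' + 1 := by
    refine (Submodule.finrank_mono hle).trans ?_
    refine (Submodule.finrank_add_le_finrank_add_finrank _ _).trans ?_
    have h2 := finrank_span_singleton (K := k) hf00
    omega
  have h2 : A' < A := by
    refine lt_of_le_of_ne inf_le_left fun h => ?_
    have h3 : f0 ∈ A' := h ▸ hf0
    have h4 : Ge P (n0 + 1) f0 := h3.2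
    have := h4.resolve_left hf00
    omega
  have h3 := Submodule.finrank_lt_finrank_of_lt h2
  obtain ⟨X, hX, hX2⟩ := ih (Module.finrank k A') (by omega) A' hA'fin rfl
  have h4 : n0 ∉ X := by
    intro h
    obtain ⟨f, hf, hf0, hfn⟩ := hX2 n0 h
    have h5 : Ge P (n0 + 1) f := hf.2
    have := h5.resolve_left hf0
    omega
  refine ⟨insert n0 X, ?_, fun n hn => ?_⟩
  · rw [Finset.card_insert_of_notMem h4]
    omega
  · rw [Finset.mem_insert] at hn
    rcases hn with rfl | hn
    · exact ⟨f0, hf0, hf00, hn0⟩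
    · obtain ⟨f, hf, h5⟩ := hX2 n hn
      exact ⟨f, hf.1, h5⟩

/-- functions with distinct orders are independent -/
theorem card_orders_le (P : Place k F) (C : Submodule k F) [FiniteDimensional k C] (X : Finset ℤ)
    (hX : ∀ n ∈ X, ∃ f ∈ C, f ≠ 0 ∧ P.ord f = n) : X.card ≤ Module.finrank k C := by
  classical
  have h1 : ∀ n : X, ∃ f : C, (f : F) ≠ 0 ∧ P.ord (f : F) = n := by
    intro n
    obtain ⟨f, hf, h2, h3⟩ := hX n n.2
    exact ⟨⟨f, hf⟩, h2, h3⟩
  choose f hf0 hfn using h1
  have hli : LinearIndependent k f := by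
    rw [linearIndependent_iff']
    intro s g hg
    by_contra hcon
    push Not at hcon
    obtain ⟨i0, hi0, hgi0⟩ := hcon
    obtain ⟨i, hi, hmin⟩ := (s.filter fun i => g i ≠ 0).exists_min_image (fun i => (i : ℤ))
      ⟨i0, Finset.mem_filter.2 ⟨hi0, hgi0⟩⟩
    rw [Finset.mem_filter] at hi
    have h2 : ∑ j ∈ s, g j • (f j : F) = 0 := by
      have h3 := congrArg (C.subtype) hg
      rw [map_sum, map_zero] at h3
      simpa only [map_smul, Submodule.subtype_apply] using h3
    rw [← Finset.add_sum_erase _ _ hi.1] at h2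
    have h4 : Ge P ((i : ℤ) + 1) (∑ j ∈ s.erase i, g j • (f j : F)) := by
      refine Ge.sum _ _ fun j hj => ?_
      rw [Finset.mem_erase] at hj
      by_cases hgj : g j = 0
      · rw [hgj, zero_smul]
        exact Or.inl rfl
      · have h5 := hmin j (Finset.mem_filter.2 ⟨hj.2, hgj⟩)
        have h6 : (i : ℤ) ≠ (j : ℤ) := fun h => hj.1 (Subtype.ext h.symm)
        rw [Algebra.smul_def]
        have h7 : Ge P ((i : ℤ) + 1) (f j : F) := Or.inr (by rw [hfn]; omega)
        simpa using (Ge.const (P := P) (g j)).mul h7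
    have h5 : (∑ j ∈ s.erase i, g j • (f j : F)) = -(g i • (f i : F)) := by
      linear_combination h2
    rw [h5] at h4
    have h6 : g i • (f i : F) ≠ 0 := smul_ne_zero hi.2 (hf0 i)
    have h7 := h4.resolve_left (neg_ne_zero.2 h6)
    rw [P.ord_neg, Algebra.smul_def, P.ord_mul (by simpa using hi.2) (hf0 i),
      P.ord_const hi.2, zero_add, hfn] at h7
    omega
  have h2 := hli.fintype_card_le_finrank
  rwa [Fintype.card_coe] at h2

open scoped Pointwise in
/-- **Hopf's lemma.** -/
theorem hopf (A B C : Submodule k F) [FiniteDimensional k A] [FiniteDimensional k B]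
    [FiniteDimensional k C] (hA : A ≠ ⊥) (hB : B ≠ ⊥) (h : ∀ a ∈ A, ∀ b ∈ B, a * b ∈ C) :
    Module.finrank k A + Module.finrank k B ≤ Module.finrank k C + 1 := by
  classical
  obtain ⟨P, -⟩ := exists_place (k := k) (K := F)
  obtain ⟨X, hX, hX2⟩ := exists_orders P _ A inferInstance rfl
  obtain ⟨Y, hY, hY2⟩ := exists_orders P _ B inferInstance rfl
  have hA' : 0 < Module.finrank k A := by
    rw [Nat.pos_iff_ne_zero, Ne, Submodule.finrank_eq_zero]
    exact hA
  have hB' : 0 < Module.finrank k B := by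
    rw [Nat.pos_iff_ne_zero, Ne, Submodule.finrank_eq_zero]
    exact hB
  have h1 := cauchy_davenport_add_of_linearOrder_isCancelAdd
    (s := X) (t := Y) (Finset.card_pos.1 (by omega)) (Finset.card_pos.1 (by omega))
  have h2 := card_orders_le P C (X + Y) (by
    intro n hn
    obtain ⟨x, hx, y, hy, rfl⟩ := Finset.mem_add.1 hn
    obtain ⟨a, ha, ha0, hax⟩ := hX2 x hx
    obtain ⟨b, hb, hb0, hby⟩ := hY2 y hy
    exact ⟨a * b, h a ha b hb, mul_ne_zero ha0 hb0, by rw [P.ord_mul ha0 hb0, hax, hby]⟩)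
  omega

end

end Pool.Agent.Helper11K9.OD
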