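import Pool.Agent.Helper11K9.OD.Span

/-!
Two curves and an extension.
-/

set_option autoImplicit false
set_option linter.overlappingInstances false
set_option linter.unusedSectionVars false

open Polynomial FF IntermediateField

namespace Pool.Agent.Helper11K9.OD

open Pool.Agent.W603.LV Pool.Agent.W619.PQ Pool.Agent.Helper11K9.PC Pool.Agent.Helper11K9.MT

/-- the numerical part: a large fibre -/
theorem num_big {r d p γ₁ γ₂ m₁ k₁ : ℕ} (hd : m₁ * k₁ = d) (hdr : d ≤ r) (hm : γ₁ ≤ m₁)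
    (hm' : p ≤ m₁) (hk : γ₂ ≤ k₁) (h₁ : 2 ≤ γ₁) (h₂ : 2 ≤ γ₂)
    (h12 : r < p * γ₂ ∨ r < γ₁ + p * (γ₂ - 2)) : False := by
  obtain ⟨a, rfl⟩ := Nat.exists_eq_add_of_le h₁
  obtain ⟨b, rfl⟩ := Nat.exists_eq_add_of_le h₂
  have e1 : p * (2 + b) ≤ d := by
    rw [← hd]
    exact Nat.mul_le_mul hm' hk
  have e3 : (2 + a) * (2 + b) ≤ d := by
    rw [← hd]
    exact Nat.mul_le_mul hm hk
  have e4 : 2 + b - 2 = b := by omega
  rw [e4] at h12
  rcases h12 with h12 | h12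
  · omega
  · -- `2 * p < 2 + a`
    have e5 : 2 * p < 2 + a := by nlinarith
    nlinarith

section

variable {k F₁ F₂ E M : Type} [Field k] [Field F₁] [Algebra k F₁] [Field F₂] [Algebra k F₂]
  [CharZero k] [IsFF k F₁] [IsFF k F₂] [IsAlgClosed k]
  [Field E] [Field M] [Algebra k E] [Algebra E M] [Algebra k M] [IsScalarTower k E M]
  [FiniteDimensional E M]

/-- embeddings are determined by their restrictions to two generating curves -/
theorem emb_inj_two (τ₁ : F₁ →ₐ[k] M) (τ₂ : F₂ →ₐ[k] M)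
    (hgen : IntermediateField.adjoin E (Set.range τ₁ ∪ Set.range τ₂) = ⊤)
    (σ σ' : M →ₐ[E] AlgebraicClosure E)
    (h₁ : (σ.restrictScalars k).comp τ₁ = (σ'.restrictScalars k).comp τ₁)
    (h₂ : (σ.restrictScalars k).comp τ₂ = (σ'.restrictScalars k).comp τ₂) : σ = σ' := by
  let C0 : IntermediateField E M :=
    { carrier := {z | σ z = σ' z}
      mul_mem' := fun {a b} ha hb => by
        change σ (a * b) = σ' (a * b)
        rw [map_mul, map_mul, show σ a = σ' a from ha, show σ b = σ' b from hb]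
      add_mem' := fun {a b} ha hb => by
        change σ (a + b) = σ' (a + b)
        rw [map_add, map_add, show σ a = σ' a from ha, show σ b = σ' b from hb]
      algebraMap_mem' := fun c => by
        change σ _ = σ' _
        rw [AlgHom.commutes, AlgHom.commutes]
      inv_mem' := fun a ha => by
        change σ a⁻¹ = σ' a⁻¹
        rw [map_inv₀, map_inv₀, show σ a = σ' a from ha] }
  have h3 : (⊤ : IntermediateField E M) ≤ C0 := by
    rw [← hgen, IntermediateField.adjoin_le_iff]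
    rintro _ (⟨f, rfl⟩ | ⟨f, rfl⟩)
    · exact DFunLike.congr_fun h₁ f
    · exact DFunLike.congr_fun h₂ f
  ext z
  exact h3 (show z ∈ ⊤ from trivial)

/-- **Two curves and an extension.** -/
theorem c_pair {D₁ : Derivation k F₁ F₁} (hD₁ : D₁ ≠ 0) {D₂ : Derivation k F₂ F₂}
    (hD₂ : D₂ ≠ 0) (τ₁ : F₁ →ₐ[k] M) (τ₂ : F₂ →ₐ[k] M) {γ₁ γ₂ r p : ℕ}
    (hγ₁ : ∀ t : F₁, Transcendental k t → γ₁ ≤ Module.finrank k⟮t⟯ F₁)
    (hγ₂ : ∀ t : F₂, Transcendental k t → γ₂ ≤ Module.finrank k⟮t⟯ F₂) (h1 : 2 ≤ γ₁) (h2 : 2 ≤ γ₂)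
    (hgen : IntermediateField.adjoin E (Set.range τ₁ ∪ Set.range τ₂) = ⊤)
    (hr0 : 0 < r) (hdr : Module.finrank E M ∣ r) (hp : ∀ q, q ∣ r → q ≠ 1 → p ≤ q)
    (hpar : Odd r ∨ (3 ≤ γ₁ ∧ r + 2 < 2 * Module.finrank k (RR D₁ hD₁)) ∨
      (3 ≤ γ₂ ∧ r + 2 < 2 * Module.finrank k (RR D₂ hD₂)))
    (hg₁ : r < 2 * Module.finrank k (RR D₁ hD₁)) (hg₂ : r < 2 * Module.finrank k (RR D₂ hD₂))
    (hm₁ : γ₁ ≤ Module.finrank E (IntermediateField.adjoin E (Set.range τ₁)))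
    (hm₂ : γ₂ ≤ Module.finrank E (IntermediateField.adjoin E (Set.range τ₂)))
    (h12 : r < p * γ₂ ∨ r < γ₁ + p * (γ₂ - 2)) (h21 : r < p * γ₁ ∨ r < γ₂ + p * (γ₁ - 2)) {c : M}
    (hc : ∀ f₁ f₂, RegD D₁ f₁ → RegD D₂ f₂ → Algebra.trace E M (c * (τ₁ f₁ * τ₂ f₂)) = 0) :
    c = 0 := by
  classical
  have hE : CharZero E := charZero_of_injective_algebraMap (algebraMap k E).injective
  by_contra hc0
  have hle : Module.finrank E M ≤ r := Nat.le_of_dvd hr0 hdr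
  have hmul₁ := Module.finrank_mul_finrank E (IntermediateField.adjoin E (Set.range τ₁)) M
  have hmul₂ := Module.finrank_mul_finrank E (IntermediateField.adjoin E (Set.range τ₂)) M
  have hkpos₁ : 0 < Module.finrank (IntermediateField.adjoin E (Set.range τ₁)) M :=
    Module.finrank_pos
  have hkpos₂ : 0 < Module.finrank (IntermediateField.adjoin E (Set.range τ₂)) M :=
    Module.finrank_pos
  have hdvdk₁ : Module.finrank (IntermediateField.adjoin E (Set.range τ₁)) M ∣ r :=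
    (Dvd.intro_left _ hmul₁).trans hdr
  have hdvdk₂ : Module.finrank (IntermediateField.adjoin E (Set.range τ₂)) M ∣ r :=
    (Dvd.intro_left _ hmul₂).trans hdr
  have hdvdm₁ : Module.finrank E (IntermediateField.adjoin E (Set.range τ₁)) ∣ r :=
    (Dvd.intro _ hmul₁).trans hdr
  have hdvdm₂ : Module.finrank E (IntermediateField.adjoin E (Set.range τ₂)) ∣ r :=
    (Dvd.intro _ hmul₂).trans hdr
  have hc' : ∀ f₂ f₁, RegD D₂ f₂ → RegD D₁ f₁ →
      Algebra.trace E M (c * (τ₂ f₂ * τ₁ f₁)) = 0 := by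
    intro f₂ f₁ hf₂ hf₁
    rw [mul_comm (τ₂ f₂)]
    exact hc f₁ f₂ hf₁ hf₂
  obtain ⟨m₁, hm₁e⟩ : ∃ m₁, m₁ = Module.finrank E (IntermediateField.adjoin E (Set.range τ₁)) :=
    ⟨_, rfl⟩
  obtain ⟨m₂, hm₂e⟩ : ∃ m₂, m₂ = Module.finrank E (IntermediateField.adjoin E (Set.range τ₂)) :=
    ⟨_, rfl⟩
  obtain ⟨k₁, hk₁e⟩ : ∃ k₁, k₁ = Module.finrank (IntermediateField.adjoin E (Set.range τ₁)) M :=
    ⟨_, rfl⟩
  obtain ⟨k₂, hk₂e⟩ : ∃ k₂, k₂ = Module.finrank (IntermediateField.adjoin E (Set.range τ₂)) M :=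
    ⟨_, rfl⟩
  obtain ⟨d, hde⟩ : ∃ d, d = Module.finrank E M := ⟨_, rfl⟩
  have hb₁ := fun (h : k₁ < γ₂) (h' : γ₂ * k₂ ≤ d) =>
    pair_bound hD₁ hD₂ τ₁ τ₂ hγ₁ hγ₂ h2 (emb_inj_two τ₁ τ₂ hgen) (by
      rw [← hk₂e, ← hde]
      exact h') (by rw [← hk₁e]; exact h) hc0 hc
  have hb₂ := fun (h : k₂ < γ₁) (h' : γ₁ * k₁ ≤ d) =>
    pair_bound hD₂ hD₁ τ₂ τ₁ hγ₂ hγ₁ h1 (fun σ σ' a b => emb_inj_two τ₁ τ₂ hgen σ σ' b a) (by
      rw [← hk₁e, ← hde]
      exact h') (by rw [← hk₂e]; exact h) hc0 hc'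
  rw [← hk₂e, ← hde] at hb₁
  rw [← hk₁e, ← hde] at hb₂
  rw [← hm₁e, ← hk₁e, ← hde] at hmul₁
  rw [← hm₂e, ← hk₂e, ← hde] at hmul₂
  rw [← hk₁e] at hkpos₁ hdvdk₁
  rw [← hk₂e] at hkpos₂ hdvdk₂
  rw [← hm₁e] at hm₁ hdvdm₁
  rw [← hm₂e] at hm₂ hdvdm₂
  rw [← hde] at hle
  have hpm₁ : p ≤ m₁ := hp m₁ hdvdm₁ (by omega)
  have hpm₂ : p ≤ m₂ := hp m₂ hdvdm₂ (by omega)
  have hbig₁ : k₁ < γ₂ := by
    by_contra hcon
    push Not at hcon
    exact num_big hmul₁ hle hm₁ hpm₁ hcon h1 h2 h12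
  have hbig₂ : k₂ < γ₁ := by
    by_contra hcon
    push Not at hcon
    exact num_big hmul₂ hle hm₂ hpm₂ hcon h2 h1 h21
  have hmk₁ : γ₁ * k₁ ≤ d := by
    rw [← hmul₁]
    exact Nat.mul_le_mul_right _ hm₁
  have hmk₂ : γ₂ * k₂ ≤ d := by
    rw [← hmul₂]
    exact Nat.mul_le_mul_right _ hm₂
  have hone₂ : k₂ = 1 := by
    by_contra hne
    have e1 := hp k₂ hdvdk₂ hne
    have e2 := hb₁ hbig₁ hmk₂
    have e3 : p * γ₂ ≤ d := by
      refine le_trans ?_ hmk₂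
      rw [mul_comm]
      exact Nat.mul_le_mul_left _ e1
    have e4 : p * (γ₂ - 2) ≤ k₂ * (γ₂ - 2) := Nat.mul_le_mul_right _ e1
    omega
  have hone₁ : k₁ = 1 := by
    by_contra hne
    have e1 := hp k₁ hdvdk₁ hne
    have e2 := hb₂ hbig₂ hmk₁
    have e3 : p * γ₁ ≤ d := by
      refine le_trans ?_ hmk₁
      rw [mul_comm]
      exact Nat.mul_le_mul_left _ e1
    have e4 : p * (γ₁ - 2) ≤ k₁ * (γ₁ - 2) := Nat.mul_le_mul_right _ e1
    omega
  have htop₁ : IntermediateField.adjoin E (Set.range τ₁) = ⊤ :=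
    IntermediateField.finrank_eq_one_iff_eq_top.1 (hk₁e ▸ hone₁)
  have htop₂ : IntermediateField.adjoin E (Set.range τ₂) = ⊤ :=
    IntermediateField.finrank_eq_one_iff_eq_top.1 (hk₂e ▸ hone₂)
  have s₁ := span_clif hD₁ τ₁ htop₁ (by omega)
  have s₂ := span_clif hD₂ τ₂ htop₂ (by omega)
  have hsum : Module.finrank E M <
      Module.finrank E (Submodule.span E {y | ∃ f, RegD D₁ f ∧ τ₁ f = y}) +
      Module.finrank E (Submodule.span E {y | ∃ f, RegD D₂ f ∧ τ₂ f = y}) := by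
    rcases hpar with hr | ⟨h3, h4⟩ | ⟨h3, h4⟩
    · obtain ⟨e, he⟩ : Odd (Module.finrank E M) := Odd.of_dvd_nat hr hdr
      omega
    · have := span_strict hD₁ τ₁ htop₁ (fun t ht => h3.trans (hγ₁ t ht)) (by omega)
      omega
    · have := span_strict hD₂ τ₂ htop₂ (fun t ht => h3.trans (hγ₂ t ht)) (by omega)
      omega
  exact hc0 (c_two_dim τ₁ τ₂ (D₁ := D₁) (D₂ := D₂) hsum hc)

end

end Pool.Agent.Helper11K9.OD
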