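import Pool.Agent.Helper11K9.OD.Pair
import Pool.Agent.Helper11K9.PC.Rec

/-!
The recursion.
-/

set_option autoImplicit false
set_option linter.overlappingInstances false
set_option linter.unusedSectionVars false

open Polynomial FF IntermediateField

namespace Pool.Agent.Helper11K9.OD

open Pool.Agent.W603.LV Pool.Agent.W619.PQ Pool.Agent.Helper11K9.PC Pool.Agent.Helper11K9.MT

section

variable {k K : Type} [Field k] [Field K] [Algebra k K] [CharZero k] [IsAlgClosed k] {n : ℕ}
  {F : Fin n → IntermediateField k K} [∀ i, IsFF k (F i)] {D : ∀ i, Derivation k (F i) (F i)}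

theorem gen_two {E : IntermediateField k K} {i j : Fin n} {M : IntermediateField E K}
    (hM : M = IntermediateField.adjoin E ((F i : Set K) ∪ (F j : Set K)))
    (τ₁ : F i →ₐ[k] M) (hτ₁ : ∀ f, ((τ₁ f : M) : K) = f)
    (τ₂ : F j →ₐ[k] M) (hτ₂ : ∀ f, ((τ₂ f : M) : K) = f) :
    IntermediateField.adjoin E (Set.range τ₁ ∪ Set.range τ₂) = ⊤ := by
  subst hM
  apply IntermediateField.map_injective
    (IntermediateField.adjoin E ((F i : Set K) ∪ (F j : Set K))).val
  rw [IntermediateField.adjoin_map, ← AlgHom.fieldRange_eq_map, IntermediateField.fieldRange_val]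
  congr 1
  ext y
  constructor
  · rintro ⟨_, (⟨f, rfl⟩ | ⟨f, rfl⟩), rfl⟩
    · change ((τ₁ f : _) : K) ∈ _
      rw [hτ₁]
      exact Or.inl f.2
    · change ((τ₂ f : _) : K) ∈ _
      rw [hτ₂]
      exact Or.inr f.2
  · rintro (hy | hy)
    · exact ⟨_, Or.inl ⟨⟨y, hy⟩, rfl⟩, hτ₁ _⟩
    · exact ⟨_, Or.inr ⟨⟨y, hy⟩, rfl⟩, hτ₂ _⟩

/-- the degree of the field generated by a curve does not depend on the ambient field -/
theorem adj_finrank {E : IntermediateField k K} {i : Fin n} (M : IntermediateField E K)
    (τ : F i →ₐ[k] M) (hτ : ∀ f, ((τ f : M) : K) = f) :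
    Module.finrank E (IntermediateField.adjoin E (Set.range τ)) =
      Module.finrank E (IntermediateField.adjoin E (F i : Set K)) := by
  have h1 : (IntermediateField.adjoin E (Set.range τ)).map M.val =
      IntermediateField.adjoin E (F i : Set K) := by
    rw [IntermediateField.adjoin_map]
    congr 1
    ext y
    constructor
    · rintro ⟨_, ⟨f, rfl⟩, rfl⟩
      change ((τ f : _) : K) ∈ _
      rw [hτ]
      exact f.2
    · intro hy
      exact ⟨_, ⟨⟨y, hy⟩, rfl⟩, hτ _⟩
  rw [← h1]
  exact ((IntermediateField.adjoin E (Set.range τ)).equivMap M.val).toLinearEquiv.finrank_eq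

/-- **The recursion.** -/
theorem rec_gen (hD : ∀ i, D i ≠ 0) (hsup : ⨆ i, F i = ⊤) {γ : Fin n → ℕ}
    (hγ : ∀ i (t : F i), Transcendental k t → γ i ≤ Module.finrank k⟮t⟯ (F i))
    (hγ2 : ∀ i, 2 ≤ γ i) {J : K} (hJ : J ≠ 0) {r p : ℕ} (hr0 : 0 < r)
    (hp : ∀ q, q ∣ r → q ≠ 1 → p ≤ q)
    (hpar : ∀ i j, i ≠ j → Odd r ∨ (3 ≤ γ i ∧ r + 2 < 2 * Module.finrank k (RR (D i) (hD i))) ∨
      (3 ≤ γ j ∧ r + 2 < 2 * Module.finrank k (RR (D j) (hD j))))
    (hg : ∀ i, r < 2 * Module.finrank k (RR (D i) (hD i)))
    (H : ∀ i j, i ≠ j → r < p * γ j ∨ r < γ i + p * (γ j - 2)) :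
    ∀ (m : ℕ) (S : Finset (Fin n)) (E : IntermediateField k K), S.card = m →
      FiniteDimensional E K → Module.finrank E K ∣ r → (∀ j, j ∉ S → F j ≤ E) →
      TrZ F D J S E →
      ∃ (i : Fin n) (E' : IntermediateField k K), E ≤ E' ∧ FiniteDimensional E' K ∧
        (∀ j, j ≠ i → F j ≤ E') ∧ TrZ F D J {i} E' := by
  classical
  intro m
  induction m using Nat.strong_induction_on with
  | _ m ih =>
    intro S E hS hfin hdvd hFE hT
    rcases Nat.eq_zero_or_pos m with hm0 | hmpos
    · exfalso
      subst hm0
      rw [Finset.card_eq_zero] at hS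
      subst hS
      have hE : E = ⊤ := by
        rw [← top_le_iff, ← hsup, iSup_le_iff]
        exact fun j => hFE j (Finset.notMem_empty j)
      have h1 := hT (fun _ => 0) (fun i hi => absurd hi (Finset.notMem_empty i))
      rw [Finset.prod_empty, mul_one] at h1
      obtain ⟨J', hJ'⟩ : ∃ J' : E, algebraMap E K J' = J := ⟨⟨J, hE ▸ trivial⟩, rfl⟩
      rw [← hJ', Algebra.trace_algebraMap] at h1
      have hE0 : CharZero E := charZero_of_injective_algebraMap (algebraMap k E).injective
      rw [nsmul_eq_mul, mul_eq_zero] at h1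
      rcases h1 with h1 | h1
      · exact Module.finrank_pos.ne' (Nat.cast_eq_zero.1 h1)
      · apply hJ
        rw [← hJ', h1, map_zero]
    rcases Nat.lt_or_ge m 2 with hm1 | hm2
    · have hm1 : m = 1 := by omega
      subst hm1
      obtain ⟨i, rfl⟩ := Finset.card_eq_one.1 hS
      exact ⟨i, E, le_rfl, hfin, fun j hj => hFE j (by simpa using hj), hT⟩
    by_cases hred : ∃ i ∈ S, Module.finrank E (IntermediateField.adjoin E (F i : Set K)) < γ i
    · obtain ⟨i, hi, hlt⟩ := hred
      have h1 := step hT hi (hD i) fun t ht => lt_of_lt_of_le hlt (hγ i t ht)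
      have hEle : E ≤ (IntermediateField.adjoin E (F i : Set K)).restrictScalars k := by
        intro e he
        exact (IntermediateField.adjoin E (F i : Set K)).algebraMap_mem ⟨e, he⟩
      have hfin' : FiniteDimensional (IntermediateField.adjoin E (F i : Set K)) K :=
        inferInstance
      have hmul := Module.finrank_mul_finrank E (IntermediateField.adjoin E (F i : Set K)) K
      obtain ⟨i', E', h2, h3, h4, h5⟩ := ih (m - 1) (by omega) (S.erase i)
        ((IntermediateField.adjoin E (F i : Set K)).restrictScalars k)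
        (by rw [Finset.card_erase_of_mem hi, hS]) hfin' ((Dvd.intro_left _ hmul).trans hdvd)
        (fun j hj => by
          by_cases hji : j = i
          · subst hji
            exact fun z hz => IntermediateField.subset_adjoin E _ hz
          · exact (hFE j fun h => hj (Finset.mem_erase.2 ⟨hji, h⟩)).trans hEle) h1
      exact ⟨i', E', hEle.trans h2, h3, h4, h5⟩
    push Not at hred
    obtain ⟨i, hi, j, hj, hij⟩ := Finset.one_lt_card.1 (show 1 < S.card by omega)
    have hjS : j ∈ S.erase i := Finset.mem_erase.2 ⟨hij.symm, hj⟩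
    obtain ⟨M, hM⟩ : ∃ M : IntermediateField E K,
      M = IntermediateField.adjoin E ((F i : Set K) ∪ (F j : Set K)) := ⟨_, rfl⟩
    have hEle : E ≤ M.restrictScalars k := by
      intro e he
      exact M.algebraMap_mem ⟨e, he⟩
    have hle₁ : ∀ g : F i, (g : K) ∈ M := fun g => by
      rw [hM]
      exact IntermediateField.subset_adjoin E _ (Or.inl g.2)
    have hle₂ : ∀ g : F j, (g : K) ∈ M := fun g => by
      rw [hM]
      exact IntermediateField.subset_adjoin E _ (Or.inr g.2)
    obtain ⟨τ₁, hτ₁⟩ : ∃ τ₁ : F i →ₐ[k] M, ∀ f, ((τ₁ f : M) : K) = f :=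
      ⟨{ toFun := fun g => ⟨(g : K), hle₁ g⟩
         map_one' := Subtype.ext rfl
         map_mul' := fun a b => Subtype.ext rfl
         map_zero' := Subtype.ext rfl
         map_add' := fun a b => Subtype.ext rfl
         commutes' := fun c => Subtype.ext rfl }, fun _ => rfl⟩
    obtain ⟨τ₂, hτ₂⟩ : ∃ τ₂ : F j →ₐ[k] M, ∀ f, ((τ₂ f : M) : K) = f :=
      ⟨{ toFun := fun g => ⟨(g : K), hle₂ g⟩
         map_one' := Subtype.ext rfl
         map_mul' := fun a b => Subtype.ext rfl
         map_zero' := Subtype.ext rfl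
         map_add' := fun a b => Subtype.ext rfl
         commutes' := fun c => Subtype.ext rfl }, fun _ => rfl⟩
    have hfinM : FiniteDimensional E M := inferInstance
    have hfinM' : FiniteDimensional M K := inferInstance
    have hmul := Module.finrank_mul_finrank E M K
    have hMz : TrZ F D J ((S.erase i).erase j) (M.restrictScalars k) := by
      intro f hf
      have h0 : Algebra.trace M K (J * ∏ l ∈ (S.erase i).erase j, (f l : K)) = 0 := by
        refine c_pair (E := E) (M := M) (hD i) (hD j) τ₁ τ₂ (hγ i) (hγ j) (hγ2 i) (hγ2 j)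
          (gen_two hM τ₁ hτ₁ τ₂ hτ₂) hr0 ((Dvd.intro _ hmul).trans hdvd) hp (hpar i j hij)
          (hg i) (hg j)
          (by rw [adj_finrank M τ₁ hτ₁]; exact hred i hi)
          (by rw [adj_finrank M τ₂ hτ₂]; exact hred j hj) (H i j hij) (H j i hij.symm)
          fun f₁ f₂ h₁ h₂ => ?_
        have h2 := hT (Function.update (Function.update f i f₁) j f₂) fun l hl => by
          by_cases hlj : l = j
          · subst hlj
            rw [Function.update_self]
            exact h₂
          · rw [Function.update_of_ne hlj]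
            by_cases hli : l = i
            · subst hli
              rw [Function.update_self]
              exact h₁
            · rw [Function.update_of_ne hli]
              exact hf l (Finset.mem_erase.2 ⟨hlj, Finset.mem_erase.2 ⟨hli, hl⟩⟩)
        rw [← Finset.mul_prod_erase _ _ hi, Function.update_of_ne hij, Function.update_self,
          ← Finset.mul_prod_erase _ _ hjS, Function.update_self] at h2
        have h3 : ∏ l ∈ (S.erase i).erase j,
            ((Function.update (Function.update f i f₁) j f₂ l : F l) : K) =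
            ∏ l ∈ (S.erase i).erase j, (f l : K) :=
          Finset.prod_congr rfl fun l hl => by
            rw [Function.update_of_ne (Finset.ne_of_mem_erase hl),
              Function.update_of_ne (Finset.ne_of_mem_erase (Finset.mem_of_mem_erase hl))]
        rw [h3] at h2
        have h4 : J * ((f₁ : K) * ((f₂ : K) * ∏ l ∈ (S.erase i).erase j, (f l : K))) =
            (τ₁ f₁ * τ₂ f₂) • (J * ∏ l ∈ (S.erase i).erase j, (f l : K)) := by
          rw [Algebra.smul_def]
          change _ = (((τ₁ f₁ : M) : K) * ((τ₂ f₂ : M) : K)) * _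
          rw [hτ₁, hτ₂]
          ring
        rw [h4, ← Algebra.trace_trace (S := M), map_smul, smul_eq_mul] at h2
        rw [mul_comm]
        exact h2
      have h1 : ((Algebra.trace M K
          (J * ∏ l ∈ (S.erase i).erase j, (f l : K)) : M) : K) = 0 := by
        rw [h0]
        rfl
      exact Subtype.ext h1
    obtain ⟨i', E', h2, h3, h4, h5⟩ := ih (m - 2) (by omega) ((S.erase i).erase j)
      (M.restrictScalars k)
      (by rw [Finset.card_erase_of_mem hjS, Finset.card_erase_of_mem hi, hS]; omega) hfinM'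
      ((Dvd.intro_left _ hmul).trans hdvd)
      (fun l hl => by
        by_cases hlj : l = j
        · subst hlj
          exact fun z hz => hle₂ ⟨z, hz⟩
        · by_cases hli : l = i
          · subst hli
            exact fun z hz => hle₁ ⟨z, hz⟩
          · exact (hFE l fun h => hl (Finset.mem_erase.2 ⟨hlj,
              Finset.mem_erase.2 ⟨hli, h⟩⟩)).trans hEle) hMz
    exact ⟨i', E', hEle.trans h2, h3, h4, h5⟩

end

end Pool.Agent.Helper11K9.OD
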