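import Pool.Agent.Helper11K9.OD.Hopf

/-!
The functional of a regular differential.
-/

set_option autoImplicit false
set_option linter.overlappingInstances false
set_option linter.unusedSectionVars false

open Polynomial FF IntermediateField

namespace Pool.Agent.Helper11K9.OD

open Pool.Agent.W603.LV Pool.Agent.W619.PQ Pool.Agent.Helper11K9.PC

section

variable {k F : Type} [Field k] [Field F] [Algebra k F] [CharZero k] [IsFF k F] [IsAlgClosed k]

/-- the trace of a differential which is regular at the poles of `x` has order at least two at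
infinity -/
theorem res_inf {x : F} (hx : Transcendental k x) {D : Derivation k F F} (hD : D x = 1) {h : F}
    (hh : ∀ w : Place k F, w.ord x < 0 → Ge w (vo w D) h) :
    (iota hx (Algebra.trace k⟮x⟯ F h)).coeff 1 = 0 := by
  classical
  have hD0 : D ≠ 0 := by
    rintro rfl
    simp at hD
  have hfin := IsFF.finite hx
  have hx0 : x ≠ 0 := by
    rintro rfl
    exact hx isAlgebraic_zero
  obtain ⟨Z, hZ, hZ2⟩ := poles (k := k) (K := F) hx
  obtain ⟨P, hP⟩ : ∃ P : Place k F, P.ord x < 0 := by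
    have hpos : 0 < Module.finrank k⟮x⟯ F := Module.finrank_pos
    obtain ⟨P, hP⟩ : Z.Nonempty := by
      rw [Finset.nonempty_iff_ne_empty]
      rintro rfl
      rw [Finset.sum_empty] at hZ2
      omega
    exact ⟨P, (hZ P).1 hP⟩
  let xx : k⟮x⟯ := ⟨x, mem_adjoin_simple_self k x⟩
  obtain ⟨e0, q, hq⟩ := exists_over (K := k⟮x⟯) P ⟨xx, by
    change P.ord x ≠ 0; omega⟩
  have hqx : q.ord xx < 0 := by
    have h1 := hq.2 xx
    have h2 : P.ord (algebraMap k⟮x⟯ F xx) = P.ord x := rfl
    have h3 := hq.1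
    by_contra hcon
    push Not at hcon
    have : (0 : ℤ) ≤ e0 * q.ord xx := by positivity
    omega
  have h1 : Ge q 1 (Algebra.trace k⟮x⟯ F (x * h)) := by
    refine Pool.Agent.Y692.NT.trace_ge q _ fun w e hw => ?_
    have hwx : w.ord x < 0 := by
      have h1 := hw.2 xx
      have h2 : w.ord (algebraMap k⟮x⟯ F xx) = w.ord x := rfl
      have h3 := hw.1
      have h4 : (e : ℤ) * q.ord xx < 0 := mul_neg_of_pos_of_neg (by exact_mod_cast h3) hqx
      omega
    have hvo := (ord_der w hD0 (f := x) (by omega)).2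
    rw [hD, w.ord_one] at hvo
    have h5 : Ge w (w.ord x) x := Or.inr le_rfl
    exact (h5.mul (hh w hwx)).mono (by omega)
  set r := Algebra.trace k⟮x⟯ F h with hr
  have h5 : Algebra.trace k⟮x⟯ F (x * h) = xx * r := trace_mul_left xx h
  rw [h5] at h1
  by_contra hne
  have hr0 : r ≠ 0 := by
    rintro h0
    rw [h0, map_zero] at hne
    exact hne HahnSeries.coeff_zero
  have h3 : (iota hx r).order ≤ 1 := HahnSeries.order_le_of_coeff_ne_zero hne
  have h4 : q.ord (xx * r) ≥ 1 := by
    rcases h1 with h1 | h1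
    · exfalso
      rcases mul_eq_zero.1 h1 with h6 | h6
      · exact hx0 (congrArg Subtype.val h6)
      · exact hr0 h6
    · exact h1
  have h12 : P.ord (algebraMap k⟮x⟯ F (xx * r)) = P.ord x + P.ord (algebraMap k⟮x⟯ F r) := by
    rw [map_mul, P.ord_mul _ (by simpa using hr0)]
    · rfl
    · change x ≠ 0; exact hx0
  rw [hq.2, ord_iota hx hr0 P hP] at h12
  have h15 : 1 * P.ord x ≤ (iota hx r).order * P.ord x :=
    mul_le_mul_of_nonpos_right h3 hP.le
  have h16 : (0 : ℤ) < e0 * q.ord (xx * r) :=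
    mul_pos (by exact_mod_cast hq.1) (by omega)
  linarith

/-- the order of a polynomial in `x` at a place of `k(x)` where `x = c` -/
theorem ord_px_zero {x : F} (q : Place k k⟮x⟯) {c : k}
    (hq : 0 < q.ord ((⟨x, mem_adjoin_simple_self k x⟩ : k⟮x⟯) - algebraMap k k⟮x⟯ c)) {g : k[X]}
    (hg : g.eval c ≠ 0) : q.ord (px x g) = 0 := by
  obtain ⟨xx, hxx⟩ : ∃ xx : k⟮x⟯, xx = ⟨x, mem_adjoin_simple_self k x⟩ := ⟨_, rfl⟩
  rw [← hxx] at hq
  obtain ⟨ss, hss⟩ : ∃ ss : k⟮x⟯, ss = xx - algebraMap k k⟮x⟯ c := ⟨_, rfl⟩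
  rw [← hss] at hq
  have hqx : Ge q 0 xx := by
    have h7 : Ge q 1 ss := Or.inr (by omega)
    have h8 := (h7.mono (by omega : (0 : ℤ) ≤ 1)).add (Ge.const (P := q) c)
    have e : ss + algebraMap k k⟮x⟯ c = xx := by rw [hss]; ring
    rwa [e] at h8
  have hpx : ∀ g : k[X], px x g = aeval xx g := fun g => by rw [hxx]; rfl
  have h8 : Ge q 1 (px x g - algebraMap k k⟮x⟯ (g.eval c)) := by
    have h9 : X - C c ∣ g - C (g.eval c) := by
      rw [dvd_iff_isRoot]; simp
    obtain ⟨g', hg'⟩ := h9
    have h10 : px x g - algebraMap k k⟮x⟯ (g.eval c) = ss * px x g' := by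
      have := congrArg (px x) hg'
      rw [map_sub, map_mul, map_sub] at this
      have e1 : px x (C (g.eval c)) = algebraMap k k⟮x⟯ (g.eval c) := by
        rw [hpx, aeval_C]
      have e2 : px x (X : k[X]) - px x (C c) = ss := by
        rw [hpx, hpx, aeval_X, aeval_C, hss]
      rw [e1, e2] at this
      exact this
    rw [h10]
    have h11 : Ge q 1 ss := Or.inr (by omega)
    have h12 : Ge q 0 (px x g') := by
      rw [hpx]
      exact ge_aeval q hqx g'
    have h13 := h11.mul h12
    rwa [add_zero] at h13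
  have h12 : q.ord (algebraMap k k⟮x⟯ (g.eval c)) = 0 := q.ord_const hg
  have hne : algebraMap k k⟮x⟯ (g.eval c) ≠ 0 := by simpa using hg
  by_cases h13 : px x g - algebraMap k k⟮x⟯ (g.eval c) = 0
  · rw [sub_eq_zero.1 h13, h12]
  · have h14 := h8.resolve_left h13
    have h15 := q.ord_add_eq hne h13 (by omega)
    rw [add_sub_cancel] at h15
    rw [h15.2, h12]

/-- the trace of a differential which is regular outside of the poles of `x` is a polynomial -/
theorem res_fin {x : F} (hx : Transcendental k x) {D : Derivation k F F} (hD : D x = 1) {h : F}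
    (hh : ∀ w : Place k F, 0 ≤ w.ord x → Ge w (vo w D) h) :
    (iota hx (Algebra.trace k⟮x⟯ F h)).coeff 1 = 0 := by
  classical
  have hD0 : D ≠ 0 := by
    rintro rfl
    simp at hD
  have hfin := IsFF.finite hx
  set r := Algebra.trace k⟮x⟯ F h with hr
  by_cases hr0 : r = 0
  · rw [hr0, map_zero]
    rfl
  suffices hp : ∃ p : k[X], r = px x p by
    obtain ⟨p, hp⟩ := hp
    rw [hp, iota_px, coeff_eU, if_neg (by omega)]
  -- the denominator of least degree
  have hex : ∃ d : ℕ, ∃ p g : k[X], g ≠ 0 ∧ r * px x g = px x p ∧ g.natDegree = d := by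
    obtain ⟨p, g, hg, hpg⟩ := exists_px_div r
    exact ⟨_, p, g, hg, hpg, rfl⟩
  obtain ⟨p, g, hg, hpg, hgd⟩ := Nat.find_spec hex
  have hmin : ∀ p' g' : k[X], g' ≠ 0 → r * px x g' = px x p' → g.natDegree ≤ g'.natDegree := by
    intro p' g' h1 h2
    rw [hgd]
    exact Nat.find_min' hex ⟨p', g', h1, h2, rfl⟩
  rcases Nat.eq_zero_or_pos g.natDegree with hg0 | hgpos
  · obtain ⟨c, hc⟩ : ∃ c, g = C c := ⟨_, Polynomial.eq_C_of_natDegree_eq_zero hg0⟩
    have hc0 : c ≠ 0 := by
      rintro rfl
      exact hg (by rw [hc, map_zero])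
    refine ⟨p * C c⁻¹, ?_⟩
    rw [map_mul, ← hpg, hc, mul_assoc, ← map_mul, ← map_mul, mul_inv_cancel₀ hc0, map_one, map_one,
      mul_one]
  exfalso
  obtain ⟨c, hc⟩ := IsAlgClosed.exists_root g (by
    intro h
    have h2 : g.natDegree = 0 := by
      rw [Polynomial.natDegree, h]
      rfl
    omega)
  have hpc : p.eval c ≠ 0 := by
    intro hpc
    obtain ⟨g1, hg1⟩ := dvd_iff_isRoot.2 hc
    obtain ⟨p1, hp1⟩ := dvd_iff_isRoot.2 (show p.IsRoot c from hpc)
    have h1 : px x (X - C c : k[X]) ≠ 0 := by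
      intro h
      have h2 := px_injective hx (a₂ := 0) (by rw [h, map_zero])
      exact X_sub_C_ne_zero c h2
    have h2 : r * px x g1 = px x p1 := by
      apply mul_left_cancel₀ h1
      rw [← map_mul, ← hp1, ← hpg, hg1, map_mul]
      ring
    have hg10 : g1 ≠ 0 := by
      rintro rfl
      exact hg (by rw [hg1, mul_zero])
    have h3 := hmin p1 g1 hg10 h2
    rw [hg1, natDegree_mul (X_sub_C_ne_zero c) hg10, natDegree_X_sub_C] at h3
    omega
  -- a place over `x = c`
  have hs0 := sub_const_ne (k := k) hx c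
  obtain ⟨s, hs⟩ : ∃ s : F, s = x - algebraMap k F c := ⟨_, rfl⟩
  have hst : Transcendental k s := by
    intro h
    apply hx
    have h1 : x = s + algebraMap k F c := by rw [hs]; ring
    rw [h1]
    exact h.add (isAlgebraic_algebraMap c)
  have hsi : Transcendental k s⁻¹ := fun h => hst (by simpa using h.inv)
  obtain ⟨Z, hZ, hZ2⟩ := poles (k := k) (K := F) hsi
  obtain ⟨P, hP⟩ : ∃ P : Place k F, 0 < P.ord s := by
    have hfin2 := IsFF.finite hsi
    have hpos : 0 < Module.finrank k⟮s⁻¹⟯ F := Module.finrank_pos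
    obtain ⟨P, hP⟩ : Z.Nonempty := by
      rw [Finset.nonempty_iff_ne_empty]
      rintro rfl
      rw [Finset.sum_empty] at hZ2
      omega
    refine ⟨P, ?_⟩
    have := (hZ P).1 hP
    rw [P.ord_inv] at this
    omega
  let xx : k⟮x⟯ := ⟨x, mem_adjoin_simple_self k x⟩
  let ss : k⟮x⟯ := xx - algebraMap k k⟮x⟯ c
  have hss : algebraMap k⟮x⟯ F ss = s := by rw [hs]; rfl
  obtain ⟨e0, q, hq⟩ := exists_over (K := k⟮x⟯) P ⟨ss, by
    rw [hss]; omega⟩
  have hDs : D s = 1 := by
    rw [hs, map_sub, hD, Derivation.map_algebraMap, sub_zero]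
  have hqs : 0 < q.ord ss := by
    have h1 := hq.2 ss
    rw [hss] at h1
    have h16 : (0 : ℤ) < e0 * q.ord ss := by omega
    exact (pos_iff_pos_of_mul_pos h16).1 (by exact_mod_cast hq.1)
  have h1 : Ge q 1 (Algebra.trace k⟮x⟯ F (s * h)) := by
    refine Pool.Agent.Y692.NT.trace_ge q _ fun w e hw => ?_
    have hws : 0 < w.ord s := by
      have h1 := hw.2 ss
      rw [hss] at h1
      have h3 := hw.1
      have h4 : 0 < (e : ℤ) * q.ord ss := mul_pos (by exact_mod_cast h3) hqs
      omega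
    have hwx : 0 ≤ w.ord x := by
      by_contra hcon
      push Not at hcon
      have h2 := w.ord_add_eq (f := x) (g := -algebraMap k F c)
      by_cases hc0 : c = 0
      · rw [hs, hc0, map_zero, sub_zero] at hws
        omega
      · have hcF : -algebraMap k F c ≠ 0 := neg_ne_zero.2 (by simpa using hc0)
        have hx0 : x ≠ 0 := by
          rintro rfl
          exact hx isAlgebraic_zero
        have h3 := (h2 hx0 hcF (by rw [w.ord_neg, w.ord_const hc0]; omega)).2
        rw [← sub_eq_add_neg, ← hs] at h3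
        omega
    have hvo := (ord_der w hD0 (f := s) (by omega)).2
    rw [hDs, w.ord_one] at hvo
    have h5 : Ge w (w.ord s) s := Or.inr le_rfl
    exact (h5.mul (hh w hwx)).mono (by omega)
  have h5 : Algebra.trace k⟮x⟯ F (s * h) = ss * r := by
    rw [← hss]
    exact trace_mul_left ss h
  rw [h5] at h1
  have hss0 : ss ≠ 0 := by
    intro h
    rw [h, q.ord_zero] at hqs
    omega
  have h6 := h1.resolve_left (mul_ne_zero hss0 hr0)
  rw [q.ord_mul hss0 hr0] at h6
  -- the order of the denominator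
  obtain ⟨g1, hg1⟩ := dvd_iff_isRoot.2 hc
  have hg10 : px x g1 ≠ 0 := by
    intro h
    have h2 := px_injective hx (a₂ := 0) (by rw [h, map_zero])
    exact hg (by rw [hg1, h2, mul_zero])
  have h7 : px x g = ss * px x g1 := by
    rw [hg1, map_mul]
    congr 1
    rw [map_sub]
    unfold px
    rw [aeval_X, aeval_C]
  have hqxx : Ge q 0 xx := by
    have h7 : Ge q 1 ss := Or.inr (by omega)
    have h8 := (h7.mono (by omega : (0 : ℤ) ≤ 1)).add (Ge.const (P := q) c)
    have e : ss + algebraMap k k⟮x⟯ c = xx := sub_add_cancel _ _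
    rwa [e] at h8
  have h8 : 0 ≤ q.ord (px x g1) := by
    have h9 : Ge q 0 (px x g1) := ge_aeval q hqxx g1
    exact h9.resolve_left hg10
  have h9 := congrArg q.ord hpg
  rw [h7, q.ord_mul hr0 (mul_ne_zero hss0 hg10), q.ord_mul hss0 hg10,
    ord_px_zero q hqs hpc] at h9
  omega

end

end Pool.Agent.Helper11K9.OD
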