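import Pool.Agent.Helper11K9.OD.Strict

/-!
Large independent subsets of sets of points and of sets of embeddings.
-/

set_option autoImplicit false
set_option linter.overlappingInstances false
set_option linter.unusedSectionVars false

open Polynomial FF IntermediateField

namespace Pool.Agent.Helper11K9.OD

open Pool.Agent.W603.LV Pool.Agent.W619.PQ Pool.Agent.Helper11K9.PC

section

variable {k F : Type} [Field k] [Field F] [Algebra k F] [CharZero k] [IsFF k F] [IsAlgClosed k]
  {D : Derivation k F F} {hD : D ≠ 0}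

/-- one more point is at most one more condition -/
theorem finrank_insert [DecidableEq (Place k F)] (T : Finset (Place k F)) (P : Place k F) :
    Module.finrank k (RRS D hD T) ≤ Module.finrank k (RRS D hD (insert P T)) + 1 := by
  by_cases h : RRS D hD T ≤ RRS D hD (insert P T)
  · have := Submodule.finrank_mono h
    omega
  · obtain ⟨f0, hf0, hf0'⟩ := Set.not_subset.1 h
    have hf := mem_RRS.1 hf0
    have hP : ¬ Ge P (vo P D + 1) f0 := by
      intro h1
      apply hf0'
      refine mem_RRS.2 ⟨hf.1, fun Q hQ => ?_⟩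
      rw [Finset.mem_insert] at hQ
      rcases hQ with rfl | hQ
      · exact h1
      · exact hf.2 Q hQ
    have hf00 : f0 ≠ 0 := by
      rintro rfl
      exact hP Ge.zero
    have hord : P.ord f0 = vo P D := by
      have h1 := (hf.1 P).resolve_left hf00
      by_contra h2
      exact hP (Or.inr (by omega))
    have hle : RRS D hD T ≤ RRS D hD (insert P T) ⊔ Submodule.span k {f0} := by
      intro f hfT
      have hff := mem_RRS.1 hfT
      have h2 : Ge P 0 (f * f0⁻¹) := by
        have h3 : Ge P (-vo P D) f0⁻¹ := Or.inr (by rw [P.ord_inv, hord])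
        have h4 := (hff.1 P).mul h3
        rwa [add_neg_cancel] at h4
      obtain ⟨c, hc⟩ := exists_const P h2
      have h3 : f = (f - c • f0) + c • f0 := by ring
      rw [h3]
      refine Submodule.add_mem_sup ?_ (Submodule.smul_mem _ _ (Submodule.mem_span_singleton_self _))
      have h6 := mem_RRS.1 ((RRS D hD T).sub_mem hfT ((RRS D hD T).smul_mem c hf0))
      refine mem_RRS.2 ⟨h6.1, fun Q hQ => ?_⟩
      rw [Finset.mem_insert] at hQ
      rcases hQ with rfl | hQ
      · have h4 : f - c • f0 = (f * f0⁻¹ - algebraMap k F c) * f0 := by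
          rw [Algebra.smul_def]
          field_simp
        rw [h4, add_comm]
        exact hc.mul (hf.1 Q)
      · exact h6.2 Q hQ
    refine (Submodule.finrank_mono hle).trans ?_
    refine (Submodule.finrank_add_le_finrank_add_finrank _ _).trans ?_
    have h2 := finrank_span_singleton (K := k) hf00
    omega

theorem finrank_card (T : Finset (Place k F)) :
    Module.finrank k (RR D hD) ≤ Module.finrank k (RRS D hD T) + T.card := by
  classical
  induction T using Finset.induction_on with
  | empty =>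
    refine le_trans (Submodule.finrank_mono ?_) (Nat.le_add_right _ _)
    intro f hf
    exact mem_RRS.2 ⟨mem_RR_ge.1 hf, fun P hP => absurd hP (Finset.notMem_empty P)⟩
  | insert P T hP ih =>
    have h1 := finrank_insert (D := D) (hD := hD) T P
    rw [Finset.card_insert_of_notMem hP]
    omega

/-- **Large independent sets of points.** -/
theorem exists_indep (hD : D ≠ 0) (S : Finset (Place k F)) : ∃ T ⊆ S,
    Module.finrank k (RR D hD) ≤ Module.finrank k (RRS D hD S) + T.card ∧
    ∀ P ∈ T, ∃ f, RegD D f ∧ P.ord f = vo P D ∧ ∀ Q ∈ T, Q ≠ P → vo Q D + 1 ≤ Q.ord f := by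
  classical
  obtain ⟨T, hT, hmin⟩ := (S.powerset.filter fun T => RRS D hD T = RRS D hD S).exists_min_image
    Finset.card ⟨S, Finset.mem_filter.2 ⟨Finset.mem_powerset_self S, rfl⟩⟩
  rw [Finset.mem_filter, Finset.mem_powerset] at hT
  refine ⟨T, hT.1, ?_, fun P hP => ?_⟩
  · have h1 := finrank_card (D := D) (hD := hD) T
    rwa [hT.2] at h1
  · have h1 : ¬ RRS D hD (T.erase P) ≤ RRS D hD T := by
      intro h
      have h2 : RRS D hD (T.erase P) = RRS D hD S := by
        rw [← hT.2]
        refine le_antisymm h fun f hf => ?_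
        have hf := mem_RRS.1 hf
        exact mem_RRS.2 ⟨hf.1, fun Q hQ => hf.2 Q (Finset.mem_of_mem_erase hQ)⟩
      have h3 := hmin (T.erase P) (Finset.mem_filter.2 ⟨Finset.mem_powerset.2
        ((Finset.erase_subset _ _).trans hT.1), h2⟩)
      have h4 := Finset.card_erase_lt_of_mem hP
      omega
    obtain ⟨f, hf, hf'⟩ := Set.not_subset.1 h1
    have hff := mem_RRS.1 hf
    have hPf : ¬ Ge P (vo P D + 1) f := by
      intro h2
      apply hf'
      refine mem_RRS.2 ⟨hff.1, fun Q hQ => ?_⟩
      by_cases hQP : Q = P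
      · rw [hQP]
        exact h2
      · exact hff.2 Q (Finset.mem_erase.2 ⟨hQP, hQ⟩)
    have hf0 : f ≠ 0 := by
      rintro rfl
      exact hPf Ge.zero
    refine ⟨f, ⟨hf0, fun Q => (hff.1 Q).resolve_left hf0⟩, ?_, fun Q hQ hQP =>
      (hff.2 Q (Finset.mem_erase.2 ⟨hQP, hQ⟩)).resolve_left hf0⟩
    have h2 := (hff.1 P).resolve_left hf0
    by_contra h3
    exact hPf (Or.inr (by omega))

/-- **Large independent sets of embeddings.** -/
theorem exists_indep_emb {Ω : Type} [Field Ω] [Algebra k Ω] (hD : D ≠ 0) {ι : Type}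
    [Fintype ι] (τ : ι → F →ₐ[k] Ω) (hτ : Function.Injective τ) :
    ∃ (T : Finset ι) (S : Finset (Place k F)), S.card = Fintype.card ι ∧
    Module.finrank k (RR D hD) ≤ Module.finrank k (RRS D hD S) + T.card ∧
    ∀ c : ι → Ω, (∀ f, RegD D f → ∑ j ∈ T, c j * τ j f = 0) → ∀ j ∈ T, c j = 0 := by
  classical
  -- a function with poles at the zeros and poles of the differential
  obtain ⟨t, ht, htp⟩ : ∃ t : F, Transcendental k t ∧
      ∀ P : Place k F, vo P D ≠ 0 → P.ord t < 0 := by
    have hfin := vo_finite hD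
    by_cases h0 : hfin.toFinset.Nonempty
    · obtain ⟨t, ht, h1⟩ := exists_poles hfin.toFinset h0
      exact ⟨t, ht, fun P hP => h1 P (hfin.mem_toFinset.2 hP)⟩
    · obtain ⟨t, ht⟩ := IsFF.exists_transcendental (k := k) (K := F)
      refine ⟨t, ht, fun P hP => ?_⟩
      exact absurd ⟨P, hfin.mem_toFinset.2 hP⟩ h0
  -- the separating functions
  have hg : ∀ p : ι × ι, ∃ g : F, p.1 ≠ p.2 → τ p.1 g ≠ τ p.2 g := by
    intro p
    by_cases h : p.1 = p.2
    · exact ⟨0, fun h' => absurd h h'⟩
    · by_contra hcon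
      push Not at hcon
      exact h (hτ (AlgHom.ext fun g => (hcon g).2))
  choose g hg using hg
  let S : Set Ω := Set.range (fun j => τ j t) ∪
    Set.range (fun p : ι × (ι × ι) => τ p.1 (g p.2))
  have hS : S.Finite := (Set.finite_range _).union (Set.finite_range _)
  let T : Finset Ω := ((Finset.univ : Finset (ι × ι)).filter fun p => p.1 ≠ p.2).image fun p =>
    τ p.1 (g p) - τ p.2 (g p)
  have hT : ∀ x ∈ T, x ≠ 0 ∧ x ∈ Algebra.adjoin k S := by
    intro x hx
    rw [Finset.mem_image] at hx
    obtain ⟨p, hp, rfl⟩ := hx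
    rw [Finset.mem_filter] at hp
    refine ⟨sub_ne_zero.2 (hg p hp.2), sub_mem ?_ ?_⟩
    · exact Algebra.subset_adjoin (Or.inr ⟨(p.1, p), rfl⟩)
    · exact Algebra.subset_adjoin (Or.inr ⟨(p.2, p), rfl⟩)
  obtain ⟨V, hV1, hV2, hV3⟩ := exists_val S hS T hT
  have hk : ∀ a : k, V.valuation (algebraMap k Ω a) ≤ 1 := by
    intro a
    by_cases ha : a = 0
    · rw [ha, map_zero, map_zero]
      exact zero_le_one
    · exact (hV1 a ha).le
  have hSle : ∀ x ∈ S, V.valuation x ≤ 1 := by
    intro x hx
    obtain ⟨a, ha⟩ := hV3 x hx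
    have h1 : x = (x - algebraMap k Ω a) + algebraMap k Ω a := by ring
    rw [h1]
    exact (Valuation.map_add _ _ _).trans (max_le ha.le (hk a))
  -- the places
  have hplace : ∀ j, ∃ w : Place k F, ∀ f : F, w.Reg f ↔ V.valuation (τ j f) ≤ 1 := by
    intro j
    obtain ⟨a, ha⟩ := hV3 (τ j t) (Or.inl ⟨j, rfl⟩)
    have h1 : τ j t - algebraMap k Ω a = τ j (t - algebraMap k F a) := by
      rw [map_sub, AlgHom.commutes]
    rw [h1] at ha
    have h2 : t - algebraMap k F a ≠ 0 := by
      intro h
      apply ht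
      rw [sub_eq_zero.1 h]
      exact isAlgebraic_algebraMap a
    obtain ⟨w, hw⟩ := Pool.Agent.TH145.GF.place_of_val (V.comap (τ j : F →+* Ω)) (fun c => by
      rw [ValuationSubring.mem_comap]
      change τ j (algebraMap k F c) ∈ V
      rw [AlgHom.commutes, ← V.valuation_le_one_iff]
      exact hk c) (t := t - algebraMap k F a) (by
      rw [ValuationSubring.mem_comap]
      change τ j _ ∈ V
      rw [← V.valuation_le_one_iff]
      exact ha.le) (by
      rw [ValuationSubring.mem_comap]
      change τ j _ ∉ V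
      rw [← V.valuation_le_one_iff, map_inv₀, map_inv₀, not_le]
      refine (one_lt_inv₀ (zero_lt_iff.2 ?_)).2 ha
      rw [Valuation.ne_zero_iff]
      exact (_root_.map_ne_zero _).2 h2)
    refine ⟨w, fun f => ?_⟩
    rw [hw, ValuationSubring.mem_comap, ← V.valuation_le_one_iff]
    rfl
  choose w hw using hplace
  have hpos : ∀ j (f : F), 1 ≤ (w j).ord f → V.valuation (τ j f) < 1 := by
    intro j f hf
    have hf0 : f ≠ 0 := by
      rintro rfl
      rw [(w j).ord_zero] at hf
      omega
    by_contra hcon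
    push Not at hcon
    have h1 : (w j).Reg f⁻¹ := by
      rw [hw, map_inv₀, map_inv₀]
      exact inv_le_one_of_one_le₀ hcon
    have h2 := h1.resolve_left (inv_ne_zero hf0)
    rw [(w j).ord_inv] at h2
    omega
  have hpos' : ∀ j (f : F), V.valuation (τ j f) < 1 → Ge (w j) 1 f := by
    intro j f hf
    by_cases hf0 : f = 0
    · exact Or.inl hf0
    right
    by_contra hcon
    push Not at hcon
    have h1 : (w j).Reg f⁻¹ := Or.inr (by rw [(w j).ord_inv]; omega)
    rw [hw, map_inv₀, map_inv₀] at h1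
    have h3 : V.valuation (τ j f) ≠ 0 := by
      rw [Valuation.ne_zero_iff]
      exact (_root_.map_ne_zero _).2 hf0
    exact absurd h1 (not_le.2 ((one_lt_inv₀ (zero_lt_iff.2 h3)).2 hf))
  -- they are distinct
  have hdist : Function.Injective w := by
    intro j j0 heq
    by_contra hj
    obtain ⟨p, hp⟩ : ∃ p : ι × ι, p = (j, j0) := ⟨_, rfl⟩
    obtain ⟨a, ha⟩ := hV3 (τ j (g p)) (Or.inr ⟨(j, p), rfl⟩)
    obtain ⟨b, hb⟩ := hV3 (τ j0 (g p)) (Or.inr ⟨(j0, p), rfl⟩)
    have h1 : τ j (g p) - algebraMap k Ω a = τ j (g p - algebraMap k F a) := by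
      rw [map_sub, AlgHom.commutes]
    have h2 : τ j0 (g p) - algebraMap k Ω b = τ j0 (g p - algebraMap k F b) := by
      rw [map_sub, AlgHom.commutes]
    have h3 : Ge (w j) 1 (g p - algebraMap k F a) := hpos' j _ (by rw [← h1]; exact ha)
    have h4 : Ge (w j) 1 (g p - algebraMap k F b) := by
      rw [heq]
      exact hpos' j0 _ (by rw [← h2]; exact hb)
    have h5 : Ge (w j) 1 (algebraMap k F (b - a)) := by
      have h6 := h3.sub h4
      have h7 : g p - algebraMap k F a - (g p - algebraMap k F b) = algebraMap k F (b - a) := by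
        rw [map_sub]
        ring
      rwa [h7] at h6
    have h6 := const_zero (w j) h5
    have h7 := hV2 (τ j (g p) - τ j0 (g p)) (by
      refine Finset.mem_image.2 ⟨p, Finset.mem_filter.2 ⟨Finset.mem_univ _, ?_⟩, ?_⟩
      · rw [hp]
        exact hj
      · rw [hp])
    have h8 : τ j (g p) - τ j0 (g p) =
        (τ j (g p) - algebraMap k Ω a) - (τ j0 (g p) - algebraMap k Ω b) := by
      rw [sub_eq_zero.1 h6]
      ring
    rw [h8] at h7
    have h9 := Valuation.map_sub V.valuation (τ j (g p) - algebraMap k Ω a)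
      (τ j0 (g p) - algebraMap k Ω b)
    rw [h7] at h9
    exact absurd h9 (not_le.2 (max_lt ha hb))
  -- the differential is a unit at the places
  have hvo : ∀ j, vo (w j) D = 0 := by
    intro j
    by_contra h
    have h1 := htp (w j) h
    have h2 : (w j).Reg t := (hw j t).2 (hSle _ (Or.inl ⟨j, rfl⟩))
    have h3 : t ≠ 0 := by
      rintro rfl
      exact ht isAlgebraic_zero
    have := h2.resolve_left h3
    omega
  obtain ⟨T0, hT0, hT1, hT2⟩ := exists_indep hD (Finset.univ.image w)
  have hcardS : ((Finset.univ : Finset ι).image w).card = Fintype.card ι := by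
    rw [Finset.card_image_of_injective _ hdist, Finset.card_univ]
  obtain ⟨T1, hT1d⟩ : ∃ T1 : Finset ι, T1 = Finset.univ.filter fun j => w j ∈ T0 := ⟨_, rfl⟩
  have hTcard : T1.card = T0.card := by
    rw [← Finset.card_image_of_injective T1 hdist]
    congr 1
    ext P
    rw [Finset.mem_image]
    constructor
    · rintro ⟨j, hj, rfl⟩
      rw [hT1d, Finset.mem_filter] at hj
      exact hj.2
    · intro hP
      obtain ⟨j, -, rfl⟩ := Finset.mem_image.1 (hT0 hP)
      exact ⟨j, by rw [hT1d, Finset.mem_filter]; exact ⟨Finset.mem_univ _, hP⟩, rfl⟩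
  refine ⟨T1, Finset.univ.image w, hcardS, by rwa [hTcard], fun c hc => ?_⟩
  by_contra hcon
  push Not at hcon
  obtain ⟨j1, hj1, hcj1⟩ := hcon
  obtain ⟨j0, hj0, hmax⟩ := T1.exists_max_image (fun j => V.valuation (c j)) ⟨j1, hj1⟩
  have hv0 : V.valuation (c j0) ≠ 0 := by
    intro h
    have h1 := hmax j1 hj1
    rw [h] at h1
    have h2 : V.valuation (c j1) ≠ 0 := by rwa [Valuation.ne_zero_iff]
    exact h2 (le_antisymm h1 zero_le)
  have hj0' : w j0 ∈ T0 := by
    rw [hT1d, Finset.mem_filter] at hj0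
    exact hj0.2
  obtain ⟨f, hf, hf2, hf3⟩ := hT2 (w j0) hj0'
  have h1 := hc f hf
  rw [← Finset.add_sum_erase _ _ hj0] at h1
  have h2 : V.valuation (∑ j ∈ T1.erase j0, c j * τ j f) < V.valuation (c j0) := by
    refine Valuation.map_sum_lt _ hv0 fun j hj => ?_
    rw [Finset.mem_erase] at hj
    rw [map_mul]
    have h3 : 1 ≤ (w j).ord f := by
      have h4 := hj.2
      rw [hT1d, Finset.mem_filter] at h4
      have := hf3 (w j) h4.2 fun h => hj.1 (hdist h)
      rwa [hvo, zero_add] at this
    have h4 := hpos j f h3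
    have h5 := hmax j hj.2
    calc V.valuation (c j) * V.valuation (τ j f) ≤ V.valuation (c j0) * V.valuation (τ j f) :=
          mul_le_mul_left h5 _
      _ < V.valuation (c j0) * 1 := by
          exact mul_lt_mul_of_pos_left h4 (zero_lt_iff.2 hv0)
      _ = V.valuation (c j0) := mul_one _
  have h3 : V.valuation (τ j0 f) = 1 := by
    rw [hvo] at hf2
    refine le_antisymm ((hw j0 f).1 (Or.inr hf2.ge)) ?_
    have h4 : (w j0).Reg f⁻¹ := Or.inr (by rw [(w j0).ord_inv, hf2]; omega)
    rw [hw, map_inv₀, map_inv₀] at h4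
    by_contra hlt
    push Not at hlt
    have h5 : V.valuation (τ j0 f) ≠ 0 := by
      rw [Valuation.ne_zero_iff]
      exact (_root_.map_ne_zero _).2 hf.1
    exact absurd h4 (not_le.2 ((one_lt_inv₀ (zero_lt_iff.2 h5)).2 hlt))
  have h4 : V.valuation (c j0 * τ j0 f) = V.valuation (c j0) := by
    rw [map_mul, h3, mul_one]
  have h5 : c j0 * τ j0 f = -∑ j ∈ T1.erase j0, c j * τ j f := by
    linear_combination h1
  rw [h5, Valuation.map_neg] at h4
  exact absurd h4 h2.ne

end

end Pool.Agent.Helper11K9.OD
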