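import Pool.Agent.Helper11K9.OD.Sets
import Pool.Agent.Helper11K9.MT.Lines

/-!
Traces of products of regular differentials of two curves.
-/

set_option autoImplicit false
set_option linter.overlappingInstances false
set_option linter.unusedSectionVars false

open Polynomial FF IntermediateField

namespace Pool.Agent.Helper11K9.OD

open Pool.Agent.W603.LV Pool.Agent.W619.PQ Pool.Agent.Helper11K9.PC Pool.Agent.Helper11K9.MT

section

variable {k F : Type} [Field k] [Field F] [Algebra k F] [CharZero k] [IsFF k F] [IsAlgClosed k]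

/-- a curve with a regular differential has gonality at least two -/
theorem two_le_gon {D : Derivation k F F} (hD : D ≠ 0) {f : F} (hf : RegD D f) {t : F}
    (ht : Transcendental k t) : 2 ≤ Module.finrank k⟮t⟯ F := by
  classical
  by_contra hcon
  push Not at hcon
  have hfin := IsFF.finite ht
  have hpos : 0 < Module.finrank k⟮t⟯ F := Module.finrank_pos
  have hone : Module.finrank k⟮t⟯ F = 1 := by omega
  have ht0 : t ≠ 0 := by
    rintro rfl
    exact ht isAlgebraic_zero
  have hDt := der_ne_zero hD ht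
  -- all zeros and poles of `t - c` are simple
  have hsimple : ∀ s : F, Transcendental k s → Module.finrank k⟮s⟯ F = 1 → ∀ P : Place k F,
      P.ord s < 0 → P.ord s = -1 := by
    intro s hs h1 P hP
    obtain ⟨Z, hZ, hZ2⟩ := poles (k := k) (K := F) hs
    rw [h1] at hZ2
    have h2 := Finset.single_le_sum (f := fun w : Place k F => (-w.ord s).toNat * w.deg)
      (fun _ _ => Nat.zero_le _) ((hZ P).2 hP)
    rw [hZ2, deg_one, mul_one] at h2
    omega
  -- there is a pole
  obtain ⟨Z, hZ, hZ2⟩ := poles (k := k) (K := F) ht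
  obtain ⟨P0, hP0⟩ : ∃ P : Place k F, P.ord t < 0 := by
    obtain ⟨P, hP⟩ : Z.Nonempty := by
      rw [Finset.nonempty_iff_ne_empty]
      rintro rfl
      rw [Finset.sum_empty] at hZ2
      omega
    exact ⟨P, (hZ P).1 hP⟩
  -- the function `f / D t`
  obtain ⟨h, hh⟩ : ∃ h : F, h = f * (D t)⁻¹ := ⟨_, rfl⟩
  have hh0 : h ≠ 0 := by
    rw [hh]
    exact mul_ne_zero hf.1 (inv_ne_zero hDt)
  have hreg : ∀ P : Place k F, 0 ≤ P.ord h := by
    intro P
    rw [hh, P.ord_mul hf.1 (inv_ne_zero hDt), P.ord_inv]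
    have h1 := hf.2 P
    rcases lt_or_ge (P.ord t) 0 with hPt | hPt
    · have h2 := (ord_der P hD (f := t) (by omega)).2
      rw [hsimple t ht hone P hPt] at h2
      omega
    · obtain ⟨c, hc⟩ := exists_const P (f := t) (Or.inr hPt)
      have hs0 := sub_const_ne (k := k) ht c
      have hc' := hc.resolve_left hs0
      obtain ⟨s, hs⟩ : ∃ s : F, s = t - algebraMap k F c := ⟨_, rfl⟩
      rw [← hs] at hc' hs0
      have hDs : D s = D t := by
        rw [hs, map_sub, Derivation.map_algebraMap, sub_zero]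
      have hst : Transcendental k s := by
        intro h
        apply ht
        have h1 : t = s + algebraMap k F c := by rw [hs]; ring
        rw [h1]
        exact h.add (isAlgebraic_algebraMap c)
      have hsi : Transcendental k s⁻¹ := fun h => hst (by simpa using h.inv)
      have hadj : k⟮s⁻¹⟯ = k⟮t⟯ := by
        apply le_antisymm
        · rw [IntermediateField.adjoin_simple_le_iff, hs]
          exact inv_mem (sub_mem (mem_adjoin_simple_self k t) ((k⟮t⟯).algebraMap_mem c))
        · rw [IntermediateField.adjoin_simple_le_iff]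
          have h1 : t = (s⁻¹)⁻¹ + algebraMap k F c := by rw [inv_inv, hs]; ring
          have h2 : (s⁻¹)⁻¹ + algebraMap k F c ∈ k⟮s⁻¹⟯ :=
            add_mem (inv_mem (mem_adjoin_simple_self k s⁻¹)) ((k⟮s⁻¹⟯).algebraMap_mem c)
          rwa [← h1] at h2
      have hone2 : Module.finrank k⟮s⁻¹⟯ F = 1 := by rw [hadj, hone]
      have h3 : P.ord s = 1 := by
        have h4 := hsimple s⁻¹ hsi hone2 P (by rw [P.ord_inv]; omega)
        rw [P.ord_inv] at h4
        omega
      have h2 := (ord_der P hD (f := s) (by omega)).2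
      rw [hDs, h3] at h2
      omega
  have hP0h : 0 < P0.ord h := by
    rw [hh, P0.ord_mul hf.1 (inv_ne_zero hDt), P0.ord_inv]
    have h1 := hf.2 P0
    have h2 := (ord_der P0 hD (f := t) (by omega)).2
    rw [hsimple t ht hone P0 hP0] at h2
    omega
  have hht : Transcendental k h := P0.transcendental_of_ord_ne (by omega)
  obtain ⟨Z', hZ', hZ2'⟩ := poles (k := k) (K := F) hht
  have hfin' := IsFF.finite hht
  have hpos' : 0 < Module.finrank k⟮h⟯ F := Module.finrank_pos
  have hempty : Z' = ∅ := by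
    ext P
    rw [hZ']
    have := hreg P
    simp only [Finset.notMem_empty, iff_false]
    omega
  rw [hempty, Finset.sum_empty] at hZ2'
  omega

end

section

variable {k F E M : Type} [Field k] [Field F] [Algebra k F] [CharZero k] [IsFF k F] [IsAlgClosed k]
  [Field E] [Field M] [Algebra k E] [Algebra E M] [Algebra k M] [IsScalarTower k E M]
  [FiniteDimensional E M]

/-- the dimension of the span of the regular differentials -/
theorem span_dim {D : Derivation k F F} (hD : D ≠ 0) (τ : F →ₐ[k] M)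
    (hgen : IntermediateField.adjoin E (Set.range τ) = ⊤) :
    ∃ S : Finset (Place k F), S.card = Module.finrank E M ∧
      Module.finrank k (RR D hD) ≤ Module.finrank k (RRS D hD S) +
        Module.finrank E (Submodule.span E {y | ∃ f, RegD D f ∧ τ f = y}) := by
  classical
  have hE : CharZero E := charZero_of_injective_algebraMap (algebraMap k E).injective
  obtain ⟨W, hW⟩ : ∃ W : Submodule E M, W = Submodule.span E {y | ∃ f, RegD D f ∧ τ f = y} :=
    ⟨_, rfl⟩
  rw [← hW]
  obtain ⟨s, S, hS, hs1, hs2⟩ := exists_indep_emb (Ω := AlgebraicClosure E) hD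
    (fun σ : M →ₐ[E] AlgebraicClosure E => (σ.restrictScalars k).comp τ) (emb_inj τ hgen)
  rw [AlgHom.card] at hS
  refine ⟨S, hS, ?_⟩
  let g : s → W →ₗ[E] AlgebraicClosure E := fun σ =>
    (σ : M →ₐ[E] AlgebraicClosure E).toLinearMap.comp W.subtype
  let Φ : (s → AlgebraicClosure E) →ₗ[AlgebraicClosure E] (W →ₗ[E] AlgebraicClosure E) :=
    Fintype.linearCombination (AlgebraicClosure E) g
  have hΦ : Function.Injective Φ := by
    rw [← LinearMap.ker_eq_bot, LinearMap.ker_eq_bot']
    intro c hc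
    obtain ⟨c', hc'⟩ : ∃ c' : (M →ₐ[E] AlgebraicClosure E) → AlgebraicClosure E,
        c' = fun σ => if h : σ ∈ s then c ⟨σ, h⟩ else 0 := ⟨_, rfl⟩
    have hcv : ∀ σ : s, c' σ = c σ := fun σ => by
      rw [hc']
      exact dif_pos σ.2
    have h1 := hs2 c' (fun f hf => by
      have h1 : τ f ∈ W := by
        rw [hW]
        exact Submodule.subset_span ⟨f, hf, rfl⟩
      have h2 := DFunLike.congr_fun hc (⟨τ f, h1⟩ : W)
      simp only [Φ, Fintype.linearCombination_apply, LinearMap.sum_apply, LinearMap.smul_apply,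
        smul_eq_mul, LinearMap.zero_apply] at h2
      rw [← h2, ← Finset.sum_coe_sort s]
      refine Finset.sum_congr rfl fun σ _ => ?_
      rw [hcv]
      rfl)
    funext σ
    have h2 := h1 σ σ.2
    rw [hcv] at h2
    exact h2
  have h1 := LinearMap.finrank_le_finrank_of_injective hΦ
  rw [Module.finrank_linearMap, Module.finrank_self, mul_one, Module.finrank_fintype_fun_eq_card,
    Fintype.card_coe] at h1
  omega

/-- **The dimension of the span of the regular differentials**, Clifford's bound. -/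
theorem span_clif {D : Derivation k F F} (hD : D ≠ 0) (τ : F →ₐ[k] M)
    (hgen : IntermediateField.adjoin E (Set.range τ) = ⊤)
    (hg : Module.finrank E M ≤ 2 * Module.finrank k (RR D hD)) :
    Module.finrank E M ≤
      2 * Module.finrank E (Submodule.span E {y | ∃ f, RegD D f ∧ τ f = y}) := by
  obtain ⟨S, hS, h⟩ := span_dim hD τ hgen
  by_cases hne : RRS D hD S = ⊥
  · rw [hne, finrank_bot] at h
    omega
  · have h2 := clifford S hne
    omega

/-- **The dimension of the span of the regular differentials**, the strict bound for curves of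
gonality at least three. -/
theorem span_strict {D : Derivation k F F} (hD : D ≠ 0) (τ : F →ₐ[k] M)
    (hgen : IntermediateField.adjoin E (Set.range τ) = ⊤)
    (hγ : ∀ t : F, Transcendental k t → 3 ≤ Module.finrank k⟮t⟯ F)
    (hg : Module.finrank E M + 2 < 2 * Module.finrank k (RR D hD)) :
    Module.finrank E M <
      2 * Module.finrank E (Submodule.span E {y | ∃ f, RegD D f ∧ τ f = y}) := by
  obtain ⟨S, hS, h⟩ := span_dim hD τ hgen
  have hpos : 0 < Module.finrank E M := Module.finrank_pos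
  rcases Nat.lt_or_ge (Module.finrank k (RRS D hD S)) 2 with h2 | h2
  · omega
  · have h3 := clifford_strict hγ (S := S) (Finset.card_pos.1 (by omega)) h2
    omega

/-- the number of embeddings which extend a given one -/
theorem fiber_card (τ : F →ₐ[k] M) (σ0 : M →ₐ[E] AlgebraicClosure E) [DecidableEq (F →ₐ[k] AlgebraicClosure E)] :
    ((Finset.univ : Finset (M →ₐ[E] AlgebraicClosure E)).filter fun σ =>
      (σ.restrictScalars k).comp τ = (σ0.restrictScalars k).comp τ).card =
      Module.finrank (IntermediateField.adjoin E (Set.range τ)) M := by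
  classical
  obtain ⟨K0, hK0⟩ : ∃ K0 : IntermediateField E M, K0 = IntermediateField.adjoin E (Set.range τ) :=
    ⟨_, rfl⟩
  rw [← hK0]
  have hE : CharZero E := charZero_of_injective_algebraMap (algebraMap k E).injective
  have hKc : CharZero K0 := charZero_of_injective_algebraMap (algebraMap E K0).injective
  have hmem : ∀ f, τ f ∈ K0 := fun f => by
    rw [hK0]
    exact IntermediateField.subset_adjoin _ _ ⟨f, rfl⟩
  let _ : Algebra K0 (AlgebraicClosure E) := (σ0.toRingHom.comp (algebraMap K0 M)).toAlgebra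
  have hst : IsScalarTower E K0 (AlgebraicClosure E) := IsScalarTower.of_algebraMap_eq fun a => by
    change _ = σ0 (algebraMap E M a)
    rw [AlgHom.commutes]
  have h1 := AlgHom.card K0 M (AlgebraicClosure E)
  rw [← h1, ← Finset.card_univ]
  symm
  refine Finset.card_nbij (fun σ => σ.restrictScalars E) (fun σ _ => ?_) (fun σ _ σ' _ h2 => ?_)
    (fun σ hσ => ?_)
  · rw [Finset.mem_coe, Finset.mem_filter]
    refine ⟨Finset.mem_univ _, ?_⟩
    ext f
    exact σ.commutes ⟨τ f, hmem f⟩
  · exact AlgHom.restrictScalars_injective E h2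
  · rw [Finset.mem_coe, Finset.mem_filter] at hσ
    let C0 : IntermediateField E M :=
      { carrier := {z | σ z = σ0 z}
        mul_mem' := fun {a b} ha hb => by
          change σ (a * b) = σ0 (a * b)
          rw [map_mul, map_mul, show σ a = σ0 a from ha, show σ b = σ0 b from hb]
        add_mem' := fun {a b} ha hb => by
          change σ (a + b) = σ0 (a + b)
          rw [map_add, map_add, show σ a = σ0 a from ha, show σ b = σ0 b from hb]
        algebraMap_mem' := fun c => by
          change σ _ = σ0 _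
          rw [AlgHom.commutes, AlgHom.commutes]
        inv_mem' := fun a ha => by
          change σ a⁻¹ = σ0 a⁻¹
          rw [map_inv₀, map_inv₀, show σ a = σ0 a from ha] }
    have h3 : K0 ≤ C0 := by
      rw [hK0, IntermediateField.adjoin_le_iff]
      rintro _ ⟨f, rfl⟩
      exact DFunLike.congr_fun hσ.2 f
    exact ⟨{ σ with commutes' := fun e => h3 e.2 }, Finset.mem_coe.2 (Finset.mem_univ _), by
      ext z
      rfl⟩

end

section

variable {k F₁ F₂ E M : Type} [Field k] [Field F₁] [Algebra k F₁] [Field F₂] [Algebra k F₂]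
  [CharZero k] [IsFF k F₁] [IsFF k F₂] [IsAlgClosed k]
  [Field E] [Field M] [Algebra k E] [Algebra E M] [Algebra k M] [IsScalarTower k E M]
  [FiniteDimensional E M]

/-- two spans of large dimension -/
theorem c_two_dim {D₁ : Derivation k F₁ F₁} {D₂ : Derivation k F₂ F₂} (τ₁ : F₁ →ₐ[k] M)
    (τ₂ : F₂ →ₐ[k] M)
    (h : Module.finrank E M <
      Module.finrank E (Submodule.span E {y | ∃ f, RegD D₁ f ∧ τ₁ f = y}) +
      Module.finrank E (Submodule.span E {y | ∃ f, RegD D₂ f ∧ τ₂ f = y})) {c : M}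
    (hc : ∀ f₁ f₂, RegD D₁ f₁ → RegD D₂ f₂ → Algebra.trace E M (c * (τ₁ f₁ * τ₂ f₂)) = 0) :
    c = 0 := by
  classical
  have hE : CharZero E := charZero_of_injective_algebraMap (algebraMap k E).injective
  by_contra hc0
  obtain ⟨W₁, hW₁⟩ : ∃ W : Submodule E M, W = Submodule.span E {y | ∃ f, RegD D₁ f ∧ τ₁ f = y} :=
    ⟨_, rfl⟩
  obtain ⟨W₂, hW₂⟩ : ∃ W : Submodule E M, W = Submodule.span E {y | ∃ f, RegD D₂ f ∧ τ₂ f = y} :=
    ⟨_, rfl⟩
  rw [← hW₁, ← hW₂] at h
  have hinj : Function.Injective (LinearMap.mulLeft E c) := by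
    intro a b hab
    exact mul_left_cancel₀ hc0 hab
  have h3 : Module.finrank E (W₁.map (LinearMap.mulLeft E c)) = Module.finrank E W₁ :=
    (Submodule.equivMapOfInjective _ hinj W₁).finrank_eq.symm
  have htr : ∀ w₁ ∈ W₁, ∀ w₂ ∈ W₂, Algebra.trace E M (c * (w₁ * w₂)) = 0 := by
    intro w₁ hw₁
    rw [hW₁] at hw₁
    induction hw₁ using Submodule.span_induction with
    | mem y hy =>
      obtain ⟨f₁, hf₁, rfl⟩ := hy
      intro w₂ hw₂
      rw [hW₂] at hw₂
      induction hw₂ using Submodule.span_induction with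
      | mem y hy =>
        obtain ⟨f₂, hf₂, rfl⟩ := hy
        exact hc f₁ f₂ hf₁ hf₂
      | zero => rw [mul_zero, mul_zero, map_zero]
      | add a b _ _ ha hb => rw [mul_add, mul_add, map_add, ha, hb, add_zero]
      | smul r a _ ha => rw [mul_smul_comm, mul_smul_comm, map_smul, ha, smul_zero]
    | zero =>
      intro w₂ _
      rw [zero_mul, mul_zero, map_zero]
    | add a b _ _ ha hb =>
      intro w₂ hw₂
      rw [add_mul, mul_add, map_add, ha w₂ hw₂, hb w₂ hw₂, add_zero]
    | smul r a _ ha =>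
      intro w₂ hw₂
      rw [smul_mul_assoc, mul_smul_comm, map_smul, ha w₂ hw₂, smul_zero]
  have hle : W₁.map (LinearMap.mulLeft E c) ≤ (Algebra.traceForm E M).orthogonal W₂ := by
    rintro _ ⟨w₁, hw₁, rfl⟩
    rw [LinearMap.BilinForm.mem_orthogonal_iff]
    intro w₂ hw₂
    rw [Algebra.traceForm_apply, LinearMap.mulLeft_apply]
    have h4 := htr w₁ hw₁ w₂ hw₂
    rw [show w₂ * (c * w₁) = c * (w₁ * w₂) by ring]
    exact h4
  have h5 := Submodule.finrank_mono hle
  have h6 := LinearMap.BilinForm.finrank_orthogonal (traceForm_nondegenerate E M) W₂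
  have h7 := Submodule.finrank_le W₂
  omega

/-- **The bound for two curves.** -/
theorem pair_bound {D₁ : Derivation k F₁ F₁} (hD₁ : D₁ ≠ 0) {D₂ : Derivation k F₂ F₂}
    (hD₂ : D₂ ≠ 0) (τ₁ : F₁ →ₐ[k] M) (τ₂ : F₂ →ₐ[k] M) {γ₁ γ₂ : ℕ}
    (hγ₁ : ∀ t : F₁, Transcendental k t → γ₁ ≤ Module.finrank k⟮t⟯ F₁)
    (hγ₂ : ∀ t : F₂, Transcendental k t → γ₂ ≤ Module.finrank k⟮t⟯ F₂) (h2 : 2 ≤ γ₂)
    (hgen : ∀ σ σ' : M →ₐ[E] AlgebraicClosure E,
      (σ.restrictScalars k).comp τ₁ = (σ'.restrictScalars k).comp τ₁ →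
      (σ.restrictScalars k).comp τ₂ = (σ'.restrictScalars k).comp τ₂ → σ = σ')
    (hm : γ₂ * Module.finrank (IntermediateField.adjoin E (Set.range τ₂)) M ≤ Module.finrank E M)
    (hk : Module.finrank (IntermediateField.adjoin E (Set.range τ₁)) M < γ₂) {c : M} (hc0 : c ≠ 0)
    (hc : ∀ f₁ f₂, RegD D₁ f₁ → RegD D₂ f₂ → Algebra.trace E M (c * (τ₁ f₁ * τ₂ f₂)) = 0) :
    γ₁ + Module.finrank (IntermediateField.adjoin E (Set.range τ₂)) M * (γ₂ - 2) ≤
      Module.finrank E M := by
  classical
  have hE : CharZero E := charZero_of_injective_algebraMap (algebraMap k E).injective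
  obtain ⟨a, ha⟩ : ∃ a : (M →ₐ[E] AlgebraicClosure E) → F₁ →ₐ[k] AlgebraicClosure E,
    a = fun σ => (σ.restrictScalars k).comp τ₁ := ⟨_, rfl⟩
  obtain ⟨b, hb⟩ : ∃ b : (M →ₐ[E] AlgebraicClosure E) → F₂ →ₐ[k] AlgebraicClosure E,
    b = fun σ => (σ.restrictScalars k).comp τ₂ := ⟨_, rfl⟩
  obtain ⟨σ0⟩ : Nonempty (M →ₐ[E] AlgebraicClosure E) := ⟨IsAlgClosed.lift⟩
  obtain ⟨k₁, hk₁⟩ : ∃ k₁, k₁ = Module.finrank (IntermediateField.adjoin E (Set.range τ₁)) M :=
    ⟨_, rfl⟩
  obtain ⟨k₂, hk₂⟩ : ∃ k₂, k₂ = Module.finrank (IntermediateField.adjoin E (Set.range τ₂)) M :=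
    ⟨_, rfl⟩
  rw [← hk₁] at hk
  rw [← hk₂] at hm ⊢
  have hk₂pos : 0 < k₂ := by
    rw [hk₂]
    exact Module.finrank_pos
  have hfib₁ : ∀ σ', ((Finset.univ : Finset (M →ₐ[E] AlgebraicClosure E)).filter fun σ =>
      a σ = a σ').card = k₁ := fun σ' => by
    rw [ha, hk₁]
    exact fiber_card τ₁ σ'
  have hfib₂ : ∀ σ', ((Finset.univ : Finset (M →ₐ[E] AlgebraicClosure E)).filter fun σ =>
      b σ = b σ').card = k₂ := fun σ' => by
    rw [hb, hk₂]
    exact fiber_card τ₂ σ'
  have hcardA : (Finset.univ : Finset (M →ₐ[E] AlgebraicClosure E)).card = Module.finrank E M := by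
    rw [Finset.card_univ, AlgHom.card]
  obtain ⟨X, hX⟩ : ∃ X, X = (Finset.univ : Finset (M →ₐ[E] AlgebraicClosure E)).image b :=
    ⟨_, rfl⟩
  have hXcard : X.card * k₂ = Module.finrank E M := by
    rw [← hcardA, Finset.card_eq_sum_card_fiberwise (f := b) (t := X) (fun σ _ => by
      rw [hX]
      exact Finset.mem_coe.2 (Finset.mem_image_of_mem _ (Finset.mem_univ σ)))]
    rw [Finset.sum_const_nat (m := k₂)]
    intro v hv
    rw [hX] at hv
    obtain ⟨σ', -, rfl⟩ := Finset.mem_image.1 hv
    exact hfib₂ σ'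
  have hX2 : γ₂ ≤ X.card := by
    rw [← hXcard] at hm
    exact Nat.le_of_mul_le_mul_right hm hk₂pos
  -- the points to be killed
  obtain ⟨R0, hR0⟩ : ∃ R0, R0 = (((Finset.univ : Finset (M →ₐ[E] AlgebraicClosure E)).filter
    fun σ => a σ = a σ0).image b).erase (b σ0) := ⟨_, rfl⟩
  have hR0card : R0.card + 1 ≤ k₁ := by
    have h1 : b σ0 ∈ ((Finset.univ : Finset (M →ₐ[E] AlgebraicClosure E)).filter
        fun σ => a σ = a σ0).image b :=
      Finset.mem_image_of_mem _ (Finset.mem_filter.2 ⟨Finset.mem_univ σ0, rfl⟩)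
    rw [hR0, Finset.card_erase_add_one h1]
    exact Finset.card_image_le.trans (hfib₁ σ0).le
  have hR0X : R0 ⊆ X.erase (b σ0) := by
    rw [hR0, hX]
    exact Finset.erase_subset_erase _ (Finset.image_subset_image (Finset.filter_subset _ _))
  obtain ⟨T, hT1, hT2, hT3⟩ := Finset.exists_subsuperset_card_eq hR0X (n := γ₂ - 2) (by omega) (by
    rw [Finset.card_erase_of_mem (by
      rw [hX]
      exact Finset.mem_image_of_mem _ (Finset.mem_univ σ0))]
    omega)
  have h0T : b σ0 ∉ T := fun h => Finset.notMem_erase _ _ (hT2 h)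
  obtain ⟨w, hw1, hw2, hw3⟩ := kill hD₂ T (b σ0) h0T fun t ht => by
    have := hγ₂ t ht
    omega
  -- the relation between the embeddings
  have hrel : ∀ f₁, RegD D₁ f₁ → ∑ σ : M →ₐ[E] AlgebraicClosure E,
      (σ c * w.sum fun g s => s * b σ g) * a σ f₁ = 0 := by
    intro f₁ hf₁
    have h1 : ∀ g ∈ w.support, ∑ σ : M →ₐ[E] AlgebraicClosure E,
        σ (c * (τ₁ f₁ * τ₂ g)) = 0 := by
      intro g hg
      rw [← trace_eq_sum_embeddings (AlgebraicClosure E), hc f₁ g hf₁ (hw1 g hg), map_zero]
    have h3 : ∑ σ : M →ₐ[E] AlgebraicClosure E,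
        (σ c * w.sum fun g s => s * b σ g) * a σ f₁ =
        ∑ g ∈ w.support, w g * ∑ σ : M →ₐ[E] AlgebraicClosure E, σ (c * (τ₁ f₁ * τ₂ g)) := by
      simp only [Finsupp.sum, Finset.mul_sum, Finset.sum_mul]
      rw [Finset.sum_comm]
      refine Finset.sum_congr rfl fun g _ => Finset.sum_congr rfl fun σ _ => ?_
      rw [map_mul, map_mul, ha, hb]
      change σ c * (w g * σ (τ₂ g)) * σ (τ₁ f₁) = _
      ring
    rw [h3]
    exact Finset.sum_eq_zero fun g hg => by rw [h1 g hg, mul_zero]
  -- the coefficients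
  obtain ⟨e, he⟩ : ∃ e : (M →ₐ[E] AlgebraicClosure E) → AlgebraicClosure E,
    e = fun σ => σ c * w.sum fun g s => s * b σ g := ⟨_, rfl⟩
  have heT : ∀ σ, b σ ∈ T → e σ = 0 := fun σ hσ => by
    rw [he]
    change σ c * _ = 0
    rw [hw2 _ hσ, mul_zero]
  obtain ⟨Y, hY⟩ : ∃ Y : Finset (F₁ →ₐ[k] AlgebraicClosure E),
    Y = ((Finset.univ : Finset (M →ₐ[E] AlgebraicClosure E)).filter fun σ => b σ ∉ T).image a :=
      ⟨_, rfl⟩
  have hYcard : Y.card + k₂ * (γ₂ - 2) ≤ Module.finrank E M := by
    have h1 : ((Finset.univ : Finset (M →ₐ[E] AlgebraicClosure E)).filter fun σ =>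
        b σ ∈ T).card = k₂ * (γ₂ - 2) := by
      rw [Finset.card_eq_sum_card_fiberwise (f := b) (t := T)
        (s := (Finset.univ : Finset (M →ₐ[E] AlgebraicClosure E)).filter fun σ => b σ ∈ T)
        (fun σ hσ => Finset.mem_coe.2 (Finset.mem_filter.1 (Finset.mem_coe.1 hσ)).2)]
      rw [Finset.sum_const_nat (m := k₂), hT3, mul_comm]
      intro v hv
      have h2 := Finset.mem_of_mem_erase (hT2 hv)
      rw [hX] at h2
      obtain ⟨σ', -, rfl⟩ := Finset.mem_image.1 h2
      rw [← hfib₂ σ', Finset.filter_filter]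
      congr 1
      ext σ
      simp only [Finset.mem_filter, Finset.mem_univ, true_and]
      constructor
      · rintro ⟨-, h⟩
        exact h
      · intro h
        exact ⟨h ▸ hv, h⟩
    have h2 := Finset.card_filter_add_card_filter_not
      (s := (Finset.univ : Finset (M →ₐ[E] AlgebraicClosure E))) (fun σ => b σ ∈ T)
    have h3 : Y.card ≤ ((Finset.univ : Finset (M →ₐ[E] AlgebraicClosure E)).filter fun σ =>
        b σ ∉ T).card := by
      rw [hY]
      exact Finset.card_image_le
    rw [h1, hcardA] at h2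
    omega
  by_contra hcon
  push Not at hcon
  -- the embeddings of the first field are independent
  have h4 := sep_emb (Ω := AlgebraicClosure E) hD₁ (fun v : Y => (v : F₁ →ₐ[k] AlgebraicClosure E))
    Subtype.val_injective (fun t ht => by
      rw [Fintype.card_coe]
      have := hγ₁ t ht
      omega) (fun v => ∑ σ ∈ (Finset.univ : Finset (M →ₐ[E] AlgebraicClosure E)).filter
        (fun σ => a σ = v), e σ) (fun f hf0 hf => by
      have h5 := hrel f ⟨hf0, hf⟩
      have h6 : ∑ σ : M →ₐ[E] AlgebraicClosure E, e σ * a σ f = 0 := by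
        rw [he]
        exact h5
      have h7 : ∑ σ : M →ₐ[E] AlgebraicClosure E, e σ * a σ f =
          ∑ σ ∈ (Finset.univ : Finset (M →ₐ[E] AlgebraicClosure E)).filter (fun σ => a σ ∈ Y),
            e σ * a σ f := by
        symm
        refine Finset.sum_subset (Finset.filter_subset _ _) fun σ _ hσ => ?_
        have h8 : b σ ∈ T := by
          by_contra h9
          apply hσ
          rw [Finset.mem_filter, hY]
          exact ⟨Finset.mem_univ _, Finset.mem_image_of_mem _
            (Finset.mem_filter.2 ⟨Finset.mem_univ _, h9⟩)⟩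
        rw [heT σ h8, zero_mul]
      rw [h7, ← Finset.sum_fiberwise_of_maps_to (t := Y) (g := a) (fun σ hσ =>
        (Finset.mem_filter.1 hσ).2), ← Finset.sum_coe_sort Y] at h6
      rw [← h6]
      refine Finset.sum_congr rfl fun v _ => ?_
      rw [Finset.sum_mul, Finset.filter_filter]
      have h8 : (Finset.univ : Finset (M →ₐ[E] AlgebraicClosure E)).filter
          (fun σ => a σ = (v : F₁ →ₐ[k] AlgebraicClosure E)) =
          (Finset.univ : Finset (M →ₐ[E] AlgebraicClosure E)).filter
          (fun σ => a σ ∈ Y ∧ a σ = (v : F₁ →ₐ[k] AlgebraicClosure E)) := by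
        ext σ
        simp only [Finset.mem_filter, Finset.mem_univ, true_and]
        constructor
        · intro h
          exact ⟨h ▸ v.2, h⟩
        · rintro ⟨-, h⟩
          exact h
      rw [← h8]
      refine Finset.sum_congr rfl fun σ hσ => ?_
      rw [(Finset.mem_filter.1 hσ).2])
  have h0Y : a σ0 ∈ Y := by
    rw [hY]
    exact Finset.mem_image_of_mem _ (Finset.mem_filter.2 ⟨Finset.mem_univ _, h0T⟩)
  have h5 := congrFun h4 ⟨a σ0, h0Y⟩
  rw [Pi.zero_apply] at h5
  change ∑ σ ∈ (Finset.univ : Finset (M →ₐ[E] AlgebraicClosure E)).filter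
    (fun σ => a σ = a σ0), e σ = 0 at h5
  have hmem0 : σ0 ∈ (Finset.univ : Finset (M →ₐ[E] AlgebraicClosure E)).filter
      (fun σ => a σ = a σ0) := Finset.mem_filter.2 ⟨Finset.mem_univ _, rfl⟩
  rw [Finset.sum_eq_single_of_mem σ0 hmem0] at h5
  · rw [he] at h5
    change σ0 c * (w.sum fun g s => s * b σ0 g) = 0 at h5
    rw [hw3, mul_one] at h5
    exact hc0 ((map_eq_zero σ0).1 h5)
  · intro σ hσ hne
    apply heT
    apply hT1
    rw [hR0, Finset.mem_erase]
    refine ⟨fun h => hne ?_, Finset.mem_image_of_mem _ hσ⟩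
    have h6 := (Finset.mem_filter.1 hσ).2
    rw [ha] at h6
    rw [hb] at h
    exact hgen σ σ0 h6 h

end

end Pool.Agent.Helper11K9.OD
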