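import Pool.Agent.Helper11K9.OD.Clif

/-!
The equality case of Clifford's inequality for sets of distinct points.
-/

set_option autoImplicit false
set_option linter.overlappingInstances false
set_option linter.unusedSectionVars false

open Polynomial FF IntermediateField

namespace Pool.Agent.Helper11K9.OD

open Pool.Agent.W603.LV Pool.Agent.W619.PQ Pool.Agent.Helper11K9.PC

section

variable {k F : Type} [Field k] [Field F] [Algebra k F] [CharZero k] [IsFF k F] [IsAlgClosed k]
  {D : Derivation k F F} {hD : D ≠ 0}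

/-- the elements of order at least `m` at `P` -/
def geS (P : Place k F) (m : ℤ) : Submodule k F where
  carrier := {f | Ge P m f}
  add_mem' := fun ha hb => ha.add hb
  zero_mem' := Ge.zero
  smul_mem' := by
    intro c y hy
    change Ge P m (c • y)
    rw [Algebra.smul_def]
    simpa using (Ge.const (P := P) c).mul hy

theorem mem_geS {P : Place k F} {m : ℤ} {f : F} : f ∈ geS P m ↔ Ge P m f := Iff.rfl

theorem finrank_ge (A : Submodule k F) [FiniteDimensional k A] (P : Place k F) (m : ℤ)
    (hA : ∀ f ∈ A, Ge P m f) :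
    Module.finrank k A ≤ Module.finrank k (A ⊓ geS P (m + 1) : Submodule k F) + 1 := by
  have hfin : FiniteDimensional k (A ⊓ geS P (m + 1) : Submodule k F) :=
    Submodule.finiteDimensional_of_le inf_le_left
  by_cases h : A ≤ geS P (m + 1)
  · rw [inf_eq_left.2 h]
    omega
  · obtain ⟨f0, hf0, hf0'⟩ := Set.not_subset.1 h
    have hP : ¬ Ge P (m + 1) f0 := hf0'
    have hf00 : f0 ≠ 0 := by
      rintro rfl
      exact hP Ge.zero
    have hord : P.ord f0 = m := by
      have h1 := (hA f0 hf0).resolve_left hf00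
      by_contra h2
      exact hP (Or.inr (by omega))
    have hle : A ≤ (A ⊓ geS P (m + 1)) ⊔ Submodule.span k {f0} := by
      intro f hfA
      have h2 : Ge P 0 (f * f0⁻¹) := by
        have h3 : Ge P (-m) f0⁻¹ := Or.inr (by rw [P.ord_inv, hord])
        have h4 := (hA f hfA).mul h3
        rwa [add_neg_cancel] at h4
      obtain ⟨c, hc⟩ := exists_const P h2
      have h3 : f = (f - c • f0) + c • f0 := by ring
      rw [h3]
      refine Submodule.add_mem_sup ?_ (Submodule.smul_mem _ _ (Submodule.mem_span_singleton_self _))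
      refine ⟨A.sub_mem hfA (A.smul_mem c hf0), ?_⟩
      change Ge P (m + 1) _
      have h4 : f - c • f0 = (f * f0⁻¹ - algebraMap k F c) * f0 := by
        rw [Algebra.smul_def]
        field_simp
      rw [h4, add_comm]
      exact hc.mul (hA f0 hf0)
    refine (Submodule.finrank_mono hle).trans ?_
    refine (Submodule.finrank_add_le_finrank_add_finrank _ _).trans ?_
    have h2 := finrank_span_singleton (K := k) hf00
    omega

/-- a pencil with at most two simple poles -/
theorem gon_of_LLS {S : Finset (Place k F)} (h : 2 ≤ Module.finrank k (LLS (k := k) S)) :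
    ∃ t : F, Transcendental k t ∧ Module.finrank k⟮t⟯ F ≤ S.card := by
  classical
  have hex : ∃ t ∈ LLS (k := k) S, t ∉ Submodule.span k {(1 : F)} := by
    by_contra hcon
    push Not at hcon
    have h1 : LLS (k := k) S ≤ Submodule.span k {(1 : F)} := fun t ht => hcon t ht
    have h2 := Submodule.finrank_mono h1
    rw [finrank_span_singleton one_ne_zero] at h2
    omega
  obtain ⟨t, ht, ht1⟩ := hex
  have htt : Transcendental k t := by
    intro halg
    apply ht1
    have hint : IsIntegral k t := halg.isIntegral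
    have hdeg := minpoly.degree_eq_one_iff.1 (IsAlgClosed.degree_eq_one_of_irreducible k
      (minpoly.irreducible hint))
    obtain ⟨c, hc⟩ := hdeg
    rw [← hc, Algebra.algebraMap_eq_smul_one]
    exact Submodule.smul_mem _ _ (Submodule.mem_span_singleton_self _)
  refine ⟨t, htt, ?_⟩
  obtain ⟨Z, hZ, hZ2⟩ := poles (k := k) (K := F) htt
  rw [mem_LLS] at ht
  have ht0 : t ≠ 0 := by
    rintro rfl
    exact htt isAlgebraic_zero
  rw [← hZ2]
  have hsub : Z ⊆ S := by
    intro P hP
    by_contra hPS
    have h1 := (ht P).resolve_left ht0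
    rw [ES_not_mem hPS] at h1
    have h2 := (hZ P).1 hP
    omega
  calc ∑ w ∈ Z, (-w.ord t).toNat * w.deg ≤ ∑ w ∈ Z, 1 := by
        refine Finset.sum_le_sum fun P hP => ?_
        have h1 := (ht P).resolve_left ht0
        rw [ES_mem (hsub hP)] at h1
        rw [deg_one, mul_one]
        omega
    _ = Z.card := by simp
    _ ≤ S.card := Finset.card_le_card hsub

/-- the descending step -/
theorem step_strict {S : Finset (Place k F)} (hS : S.Nonempty)
    (hE : Module.finrank k (LLS (k := k) S) + Module.finrank k (RRS D hD S) =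
      Module.finrank k (RR D hD) + 1)
    (hρ : 2 ≤ Module.finrank k (RRS D hD S)) (hb : 3 ≤ Module.finrank k (LLS (k := k) S)) :
    ∃ T ⊆ S, T.card < S.card ∧ T.Nonempty ∧
      Module.finrank k (LLS (k := k) T) + Module.finrank k (RRS D hD T) =
        Module.finrank k (RR D hD) + 1 := by
  classical
  have hf : ∃ f ∈ RRS D hD S, ∃ P ∈ S, ∃ R ∈ S, f ≠ 0 ∧ vo P D + 2 ≤ P.ord f ∧
      R.ord f < vo R D + 2 := by
    by_contra hcon
    push Not at hcon
    obtain ⟨P, hP⟩ := hS
    have hA := finrank_ge (RRS D hD S) P (vo P D + 1) fun f hf => (mem_RRS.1 hf).2 P hP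
    have hfin : FiniteDimensional k (RRS D hD S ⊓ geS P (vo P D + 1 + 1) : Submodule k F) :=
      Submodule.finiteDimensional_of_le inf_le_left
    have hne : (RRS D hD S ⊓ geS P (vo P D + 1 + 1) : Submodule k F) ≠ ⊥ := by
      intro h
      rw [h, finrank_bot] at hA
      omega
    have h1 := hopf (RRS D hD S ⊓ geS P (vo P D + 1 + 1)) (LLS (k := k) S) (RRS D hD S) hne
      (LLS_ne_bot S) fun f hf h hh => by
        rw [Submodule.mem_inf, mem_geS] at hf
        rw [mem_LLS] at hh
        by_cases hf0 : f = 0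
        · rw [hf0, zero_mul]
          exact Submodule.zero_mem _
        have h2 := mem_RRS.1 hf.1
        have h3 : ∀ Q ∈ S, Ge Q (vo Q D + 2) f := fun Q hQ =>
          Or.inr (hcon f hf.1 P hP Q hQ hf0 (by
            have := hf.2.resolve_left hf0
            omega))
        have h4 : ∀ Q ∈ S, Ge Q (vo Q D + 1) (f * h) := fun Q hQ => by
          have h5 := hh Q
          rw [ES_mem hQ] at h5
          exact ((h3 Q hQ).mul h5).mono (by omega)
        refine mem_RRS.2 ⟨fun Q => ?_, h4⟩
        by_cases hQ : Q ∈ S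
        · exact (h4 Q hQ).mono (by omega)
        · have h5 := hh Q
          rw [ES_not_mem hQ] at h5
          exact ((h2.1 Q).mul h5).mono (by omega)
    omega
  obtain ⟨f, hfR, P, hP, R, hR, hf0, hfP, hfRo⟩ := hf
  have hfm := mem_RRS.1 hfR
  obtain ⟨T, hT⟩ : ∃ T : Finset (Place k F), T = S.filter fun Q => vo Q D + 2 ≤ Q.ord f :=
    ⟨_, rfl⟩
  have hTS : T ⊆ S := by
    rw [hT]
    exact Finset.filter_subset _ _
  have hPT : P ∈ T := by
    rw [hT, Finset.mem_filter]
    exact ⟨hP, hfP⟩
  have hRT : R ∉ T := by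
    rw [hT, Finset.mem_filter]
    rintro ⟨-, h⟩
    omega
  have hmono : RRS D hD S ≤ RRS D hD T := by
    intro g hg
    have hg := mem_RRS.1 hg
    exact mem_RRS.2 ⟨hg.1, fun Q hQ => hg.2 Q (hTS hQ)⟩
  have hinj : Function.Injective (LinearMap.mulLeft k f) := by
    intro a b hab
    exact mul_left_cancel₀ hf0 hab
  obtain ⟨U, hU⟩ : ∃ U : Submodule k F, U = (LLS (k := k) S).map (LinearMap.mulLeft k f) :=
    ⟨_, rfl⟩
  have hUfin : FiniteDimensional k U := by
    rw [hU]
    infer_instance
  have hUr : Module.finrank k U = Module.finrank k (LLS (k := k) S) := by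
    rw [hU]
    exact (Submodule.equivMapOfInjective _ hinj _).finrank_eq.symm
  have hsup : U ⊔ RRS D hD S ≤ RRS D hD T := by
    refine sup_le ?_ hmono
    rw [hU]
    rintro _ ⟨h, hh, rfl⟩
    rw [LinearMap.mulLeft_apply]
    have hh := mem_LLS.1 hh
    have h4 : ∀ Q ∈ T, Ge Q (vo Q D + 1) (f * h) := fun Q hQ => by
      have h5 := hh Q
      rw [ES_mem (hTS hQ)] at h5
      have h6 : vo Q D + 2 ≤ Q.ord f := by
        rw [hT, Finset.mem_filter] at hQ
        exact hQ.2
      have h7 : Ge Q (vo Q D + 2) f := Or.inr h6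
      exact (h7.mul h5).mono (by omega)
    refine mem_RRS.2 ⟨fun Q => ?_, h4⟩
    by_cases hQ : Q ∈ S
    · have h5 := hh Q
      rw [ES_mem hQ] at h5
      exact ((hfm.2 Q hQ).mul h5).mono (by omega)
    · have h5 := hh Q
      rw [ES_not_mem hQ] at h5
      exact ((hfm.1 Q).mul h5).mono (by omega)
  have hinf : U ⊓ RRS D hD S ≤ (LLS (k := k) T).map (LinearMap.mulLeft k f) := by
    rintro u ⟨hu1, hu2⟩
    rw [hU] at hu1
    obtain ⟨h, hh, rfl⟩ := hu1
    refine ⟨h, ?_, rfl⟩
    have hh := mem_LLS.1 hh
    have hu2 := mem_RRS.1 hu2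
    rw [SetLike.mem_coe, mem_LLS]
    intro Q
    by_cases hQT : Q ∈ T
    · have h5 := hh Q
      rw [ES_mem (hTS hQT)] at h5
      rwa [ES_mem hQT]
    · rw [ES_not_mem hQT]
      by_cases hQ : Q ∈ S
      · have h6 := hu2.2 Q hQ
        rw [LinearMap.mulLeft_apply] at h6
        have h7 : Q.ord f < vo Q D + 2 := by
          by_contra hcon
          push Not at hcon
          exact hQT (by rw [hT, Finset.mem_filter]; exact ⟨hQ, hcon⟩)
        have h8 : Ge Q (-(Q.ord f)) f⁻¹ := Or.inr (by rw [Q.ord_inv])
        have h9 := h6.mul h8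
        have h10 : f * h * f⁻¹ = h := by field_simp
        rw [h10] at h9
        exact h9.mono (by omega)
      · have h5 := hh Q
        rwa [ES_not_mem hQ] at h5
  have h1 := Submodule.finrank_sup_add_finrank_inf_eq U (RRS D hD S)
  have h2 := Submodule.finrank_mono hsup
  have h3 := Submodule.finrank_mono hinf
  have h4 : Module.finrank k ((LLS (k := k) T).map (LinearMap.mulLeft k f)) =
      Module.finrank k (LLS (k := k) T) :=
    (Submodule.equivMapOfInjective _ hinj _).finrank_eq.symm
  have h5 := hopf_S (D := D) (hD := hD) T (by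
    intro h
    rw [h, le_bot_iff] at hmono
    rw [hmono, finrank_bot] at hρ
    omega)
  exact ⟨T, hTS, Finset.card_lt_card (Finset.ssubset_iff_subset_ne.2
    ⟨hTS, fun h => hRT (h ▸ hR)⟩), ⟨P, hPT⟩, by omega⟩

theorem strict_aux (hγ : ∀ t : F, Transcendental k t → 3 ≤ Module.finrank k⟮t⟯ F) :
    ∀ (n : ℕ) (S : Finset (Place k F)), S.card = n → S.Nonempty →
      Module.finrank k (LLS (k := k) S) + Module.finrank k (RRS D hD S) =
        Module.finrank k (RR D hD) + 1 → Module.finrank k (RRS D hD S) < 2 := by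
  intro n
  induction n using Nat.strong_induction_on with
  | _ n ih =>
    intro S hSn hS hE
    by_contra hρ
    push Not at hρ
    have h1 := rr_ineq (D := D) (hD := hD) S hS
    have hSpos := Finset.card_pos.2 hS
    rcases Nat.lt_or_ge (Module.finrank k (LLS (k := k) S)) 3 with hb | hb
    · obtain ⟨t, ht, h2⟩ := gon_of_LLS (k := k) (S := S) (by omega)
      have := hγ t ht
      omega
    · obtain ⟨T, hTS, hTc, hTn, hTE⟩ := step_strict hS hE hρ hb
      have h2 := ih T.card (by omega) T rfl hTn hTE
      have hmono : RRS D hD S ≤ RRS D hD T := by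
        intro g hg
        have hg := mem_RRS.1 hg
        exact mem_RRS.2 ⟨hg.1, fun Q hQ => hg.2 Q (hTS hQ)⟩
      have h3 := Submodule.finrank_mono hmono
      omega

/-- **The strict inequality of Clifford** for curves of gonality at least three. -/
theorem clifford_strict (hγ : ∀ t : F, Transcendental k t → 3 ≤ Module.finrank k⟮t⟯ F)
    {S : Finset (Place k F)} (hS : S.Nonempty) (hρ : 2 ≤ Module.finrank k (RRS D hD S)) :
    S.card + 2 * Module.finrank k (RRS D hD S) < 2 * Module.finrank k (RR D hD) := by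
  have h1 := rr_ineq (D := D) (hD := hD) S hS
  have h2 := hopf_S (D := D) (hD := hD) S (by
    intro h
    rw [h, finrank_bot] at hρ
    omega)
  by_contra hcon
  push Not at hcon
  have h3 := strict_aux (D := D) (hD := hD) hγ S.card S rfl hS (by omega)
  omega

end

end Pool.Agent.Helper11K9.OD
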